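import Pool.Agent.KStr.Main

/-!
# Two forms of bivariate relations
-/

set_option autoImplicit false

namespace Pool.Agent.KStr

variable {k L : Type} [Field k] [Field L] [Algebra k L]

/-- A polynomial in two variables as a polynomial over polynomials. -/
noncomputable def toBiv (k : Type) [Field k] :
    MvPolynomial (Fin 2) k →ₐ[k] Polynomial (Polynomial k) :=
  MvPolynomial.aeval ![Polynomial.C Polynomial.X, Polynomial.X]

/-- The inverse map. -/
noncomputable def ofBiv (k : Type) [Field k] :
    Polynomial (Polynomial k) →+* MvPolynomial (Fin 2) k :=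
  Polynomial.eval₂RingHom (Polynomial.eval₂RingHom MvPolynomial.C (MvPolynomial.X 0))
    (MvPolynomial.X 1)

lemma toBiv_ofBiv (f : Polynomial (Polynomial k)) : toBiv k (ofBiv k f) = f := by
  have h : (toBiv k).toRingHom.comp (ofBiv k) = RingHom.id _ := by
    apply Polynomial.ringHom_ext
    · intro g
      have h2 : ((toBiv k).toRingHom.comp (ofBiv k)).comp Polynomial.C =
          (RingHom.id (Polynomial (Polynomial k))).comp Polynomial.C := by
        apply Polynomial.ringHom_ext
        · intro c
          simp [toBiv, ofBiv]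
        · simp [toBiv, ofBiv]
      exact RingHom.congr_fun h2 g
    · simp [toBiv, ofBiv]
  exact RingHom.congr_fun h f

lemma ofBiv_toBiv (P : MvPolynomial (Fin 2) k) : ofBiv k (toBiv k P) = P := by
  have h : (ofBiv k).comp (toBiv k).toRingHom = RingHom.id _ := by
    apply MvPolynomial.ringHom_ext
    · intro c
      simp [toBiv, ofBiv]
    · intro i
      fin_cases i <;> simp [toBiv, ofBiv]
  exact RingHom.congr_fun h P

lemma eval_toBiv (x u : L) (P : MvPolynomial (Fin 2) k) :
    Polynomial.eval₂ (Polynomial.aeval x : Polynomial k →ₐ[k] L).toRingHom u (toBiv k P) =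
      MvPolynomial.aeval ![x, u] P := by
  have h : (Polynomial.eval₂RingHom (Polynomial.aeval x : Polynomial k →ₐ[k] L).toRingHom u).comp
      (toBiv k).toRingHom = (MvPolynomial.aeval ![x, u] : MvPolynomial (Fin 2) k →ₐ[k] L).toRingHom := by
    apply MvPolynomial.ringHom_ext
    · intro c
      simp [toBiv]
    · intro i
      fin_cases i <;> simp [toBiv]
  exact RingHom.congr_fun h P

lemma toBiv_degree (P : MvPolynomial (Fin 2) k) (D : ℕ) (h : P.totalDegree ≤ D) (j : ℕ)
    (hj : (toBiv k P).coeff j ≠ 0) : ((toBiv k P).coeff j).natDegree + j ≤ D := by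
  classical
  have h1 : toBiv k P = ∑ b ∈ P.support,
      Polynomial.C (Polynomial.C (P.coeff b) * Polynomial.X ^ (b 0)) * Polynomial.X ^ (b 1) := by
    conv_lhs => rw [P.as_sum]
    rw [map_sum]
    refine Finset.sum_congr rfl fun b _ => ?_
    unfold toBiv
    rw [MvPolynomial.aeval_monomial, Finsupp.prod_fintype _ _ (fun _ => pow_zero _),
      Fin.prod_univ_two]
    simp only [Matrix.cons_val_zero, Matrix.cons_val_one, map_mul, map_pow]
    rw [mul_assoc]
    rfl
  have h2 : (toBiv k P).coeff j = ∑ b ∈ P.support,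
      if j = b 1 then Polynomial.C (P.coeff b) * Polynomial.X ^ (b 0) else 0 := by
    rw [h1, Polynomial.finsetSum_coeff]
    refine Finset.sum_congr rfl fun b _ => ?_
    rw [Polynomial.coeff_C_mul, Polynomial.coeff_X_pow]
    split_ifs <;> simp
  have hb : ∀ b ∈ P.support, b 0 + b 1 ≤ D := by
    intro b hb
    have h3 := (MvPolynomial.le_totalDegree hb).trans h
    rw [Finsupp.sum_fintype _ _ (fun _ => rfl), Fin.sum_univ_two] at h3
    exact h3
  have hjD : j ≤ D := by
    by_contra hlt
    apply hj
    rw [h2]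
    refine Finset.sum_eq_zero fun b hbs => ?_
    have := hb b hbs
    rw [if_neg (by omega)]
  have h4 : ((toBiv k P).coeff j).natDegree ≤ D - j := by
    rw [h2]
    refine Polynomial.natDegree_sum_le_of_forall_le _ _ fun b hbs => ?_
    split_ifs with hjb
    · refine (Polynomial.natDegree_C_mul_X_pow_le _ _).trans ?_
      have := hb b hbs
      omega
    · simp
  omega

lemma ofBiv_degree (f : Polynomial (Polynomial k)) (D : ℕ)
    (h : ∀ j, f.coeff j ≠ 0 → (f.coeff j).natDegree + j ≤ D) :
    (ofBiv k f).totalDegree ≤ D := by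
  have h0 : ∀ g : Polynomial k, (Polynomial.eval₂ (MvPolynomial.C : k →+* MvPolynomial (Fin 2) k)
      (MvPolynomial.X 0) g).totalDegree ≤ g.natDegree := by
    intro g
    rw [Polynomial.eval₂_eq_sum, Polynomial.sum_def]
    refine MvPolynomial.totalDegree_finsetSum_le fun i hi => ?_
    refine (MvPolynomial.totalDegree_mul _ _).trans ?_
    rw [MvPolynomial.totalDegree_C, zero_add, MvPolynomial.totalDegree_X_pow]
    exact Polynomial.le_natDegree_of_mem_supp i hi
  unfold ofBiv
  rw [Polynomial.coe_eval₂RingHom, Polynomial.eval₂_eq_sum, Polynomial.sum_def]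
  refine MvPolynomial.totalDegree_finsetSum_le fun j hj => ?_
  refine (MvPolynomial.totalDegree_mul _ _).trans ?_
  rw [MvPolynomial.totalDegree_X_pow]
  refine le_trans (Nat.add_le_add_right (h0 _) j) (h j ?_)
  exact Polynomial.mem_support_iff.1 hj

/-- The two forms of relations. -/
lemma rel_iff (x u : L) (D : ℕ) :
    Rel k x D u ↔ ∃ P : MvPolynomial (Fin 2) k, P ≠ 0 ∧ P.totalDegree ≤ D ∧
      MvPolynomial.aeval ![x, u] P = 0 := by
  constructor
  · rintro ⟨f, hf0, hfd, hf⟩
    refine ⟨ofBiv k f, ?_, ofBiv_degree f D hfd, ?_⟩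
    · intro h0
      apply hf0
      rw [← toBiv_ofBiv f, h0, map_zero]
    · rw [← eval_toBiv, toBiv_ofBiv]
      exact hf
  · rintro ⟨P, hP0, hPd, hP⟩
    refine ⟨toBiv k P, ?_, toBiv_degree P D hPd, ?_⟩
    · intro h0
      apply hP0
      rw [← ofBiv_toBiv P, h0, map_zero]
    · rw [eval_toBiv]
      exact hP

end Pool.Agent.KStr
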