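import Pool.Agent.KStr.Fin

/-!
# The dimension of the space of elements with bounded profile
-/

set_option autoImplicit false

namespace Pool.Agent.KStr

open Polynomial

variable {k L : Type} [Field k] [Field L] [Algebra k L]

open IntermediateField in
lemma card_hom [IsAlgClosed L] [CharZero k] {x : L} (E : IntermediateField k⟮x⟯ L)
    [FiniteDimensional k⟮x⟯ E] :
    Fintype.card (E →ₐ[k⟮x⟯] L) = Module.finrank k⟮x⟯ E := by
  have : CharZero k⟮x⟯ := charZero_of_injective_algebraMap (algebraMap k k⟮x⟯).injective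
  exact AlgHom.card k⟮x⟯ E L

open IntermediateField in
lemma finrank_le_of_star [IsAlgClosed L] [CharZero k] {x : L} (hx : Transcendental k x)
    (E : IntermediateField k⟮x⟯ L) [FiniteDimensional k⟮x⟯ E] {D : ℕ} {u : E}
    (h : Star hx E D u) : Module.finrank k⟮x⟯ E ≤ D := by
  obtain ⟨c, hc0, _, hci⟩ := h
  rw [← card_hom E]
  have h1 : (VI hx).valuation x ^ Fintype.card (E →ₐ[k⟮x⟯] L) ≤ (VI hx).valuation x ^ D := by
    refine le_trans ?_ hci
    have h2 : (1 : (VI hx).ValueGroup) ≤ (VI hx).valuation (aeval x c) := by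
      rw [vi_poly hx hc0]
      exact one_le_pow₀ (vi_x hx).le
    have h3 : (VI hx).valuation x ^ Fintype.card (E →ₐ[k⟮x⟯] L) ≤
        ∏ τ : E →ₐ[k⟮x⟯] L, max ((VI hx).valuation x) ((VI hx).valuation (τ u)) := by
      rw [← Finset.card_univ, ← Finset.prod_const]
      exact Finset.prod_le_prod' fun τ _ => le_max_left _ _
    calc (VI hx).valuation x ^ Fintype.card (E →ₐ[k⟮x⟯] L)
        = 1 * (VI hx).valuation x ^ Fintype.card (E →ₐ[k⟮x⟯] L) := (one_mul _).symm
      _ ≤ _ := mul_le_mul' h2 h3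
  exact (pow_le_pow_iff_right₀ (vi_x hx)).1 h1

open IntermediateField in
lemma exists_frac {x : L} (hx : Transcendental k x) (y : k⟮x⟯) :
    ∃ r s : k[X], s ≠ 0 ∧ toF x s * y = toF x r := by
  obtain ⟨r, s, hrs⟩ := (mem_adjoin_simple_iff k _).1 y.2
  by_cases hs : s = 0
  · refine ⟨0, 1, one_ne_zero, ?_⟩
    rw [hs, map_zero, div_zero] at hrs
    have hy : y = 0 := Subtype.ext hrs
    rw [hy, mul_zero, map_zero]
  · refine ⟨r, s, hs, ?_⟩
    apply (algebraMap k⟮x⟯ L).injective
    rw [map_mul, algebraMap_toF, algebraMap_toF]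
    have h1 : algebraMap k⟮x⟯ L y = aeval x r / aeval x s := hrs
    have h2 : aeval x s ≠ 0 := fun h0 =>
      hs ((transcendental_iff_injective.1 hx) (h0.trans (map_zero _).symm))
    rw [h1, mul_div_cancel₀ _ h2]

open IntermediateField in
lemma toF_injective {x : L} (hx : Transcendental k x) : Function.Injective (toF (k := k) x) := by
  intro a b hab
  apply transcendental_iff_injective.1 hx
  rw [← algebraMap_toF, ← algebraMap_toF, hab]

open IntermediateField in
lemma norm_frac [IsAlgClosed L] [CharZero k] {x : L} (E : IntermediateField k⟮x⟯ L)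
    [FiniteDimensional k⟮x⟯ E] (y : E) :
    ∃ r s : k[X], ∏ τ : E →ₐ[k⟮x⟯] L, τ y = aeval x r / aeval x s := by
  have : CharZero k⟮x⟯ := charZero_of_injective_algebraMap (algebraMap k k⟮x⟯).injective
  rw [← Algebra.norm_eq_prod_embeddings]
  exact (mem_adjoin_simple_iff k _).1 (Algebra.norm k⟮x⟯ y).2

open IntermediateField in
/-- A family with bounded profile has a nonzero combination divisible by many linear factors. -/
lemma exists_comb [IsAlgClosed L] [CharZero k] {x : L} (hx : Transcendental k x)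
    (E : IntermediateField k⟮x⟯ L) [FiniteDimensional k⟮x⟯ E] {M s : ℕ} (w : Fin M → E)
    (hw : LinearIndependent k w) (hM : s * Module.finrank k⟮x⟯ E < M) :
    ∃ (α : Fin M → k) (δ π : k[X]) (b : E), ∑ i, α i • w i ≠ 0 ∧ δ ≠ 0 ∧ IsCoprime π δ ∧
      π.natDegree = s ∧ π ≠ 0 ∧
      algebraMap k⟮x⟯ E (toF x δ) * ∑ i, α i • w i = algebraMap k⟮x⟯ E (toF x π) * b ∧
      ∀ (p : k[X]) (τ : E →ₐ[k⟮x⟯] L), (VP hx p).valuation (τ b) ≤ 1 := by
  classical
  set e := Module.finrank k⟮x⟯ E with he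
  let b0 := Module.finBasis k⟮x⟯ E
  choose c hc0 hc using fun j => exists_den hx E (b0 j)
  have hcu : ∀ j, IsUnit (toF x (c j)) := fun j => by
    rw [isUnit_iff_ne_zero]
    exact fun h0 => hc0 j (toF_injective hx (h0.trans (map_zero _).symm))
  let b1 := b0.isUnitSMul hcu
  have hb1 : ∀ j (p : k[X]) (τ : E →ₐ[k⟮x⟯] L), (VP hx p).valuation (τ (b1 j)) ≤ 1 := by
    intro j p τ
    have h1 : b1 j = algebraMap k⟮x⟯ E (toF x (c j)) * b0 j := by
      rw [Module.Basis.isUnitSMul_apply, Algebra.smul_def]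
    rw [h1, map_mul, τ.commutes, algebraMap_toF, map_mul]
    exact (mul_le_mul' le_rfl (le_max_right _ _)).trans (hc j p τ)
  choose r0 s0 hs0 hrs0 using fun (ij : Fin M × Fin e) => exists_frac hx (b1.repr (w ij.1) ij.2)
  set δ : k[X] := ∏ ij, s0 ij with hδ
  have hδ0 : δ ≠ 0 := Finset.prod_ne_zero_iff.2 fun ij _ => hs0 ij
  have hr : ∀ i j, ∃ r : k[X], toF x δ * b1.repr (w i) j = toF x r := by
    intro i j
    obtain ⟨t, ht⟩ : s0 (i, j) ∣ δ := Finset.dvd_prod_of_mem s0 (Finset.mem_univ (i, j))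
    refine ⟨t * r0 (i, j), ?_⟩
    rw [ht, map_mul, map_mul, ← hrs0 (i, j)]
    ring
  choose r hr using hr
  obtain ⟨T, hTs, hTc⟩ : ∃ T : Finset k, (∀ a ∈ T, δ.eval a ≠ 0) ∧ T.card = s := by
    have hinf : {a : k | δ.eval a ≠ 0}.Infinite := by
      have h1 : {a : k | δ.eval a = 0}.Finite := by
        refine (δ.roots.toFinset.finite_toSet).subset ?_
        intro a ha
        rw [Finset.mem_coe, Multiset.mem_toFinset, mem_roots hδ0]
        exact ha
      have h2 := h1.infinite_compl
      exact h2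
    obtain ⟨T, hT1, hT2⟩ := hinf.exists_subset_card_eq s
    exact ⟨T, fun a ha => hT1 ha, hT2⟩
  let Λ : (Fin M → k) →ₗ[k] (T × Fin e → k) :=
    { toFun := fun α q => ∑ i, α i * (r i q.2).eval q.1.1
      map_add' := by
        intro α β
        funext q
        simp only [Pi.add_apply, add_mul, Finset.sum_add_distrib]
      map_smul' := by
        intro a α
        funext q
        simp only [Pi.smul_apply, smul_eq_mul, RingHom.id_apply, mul_assoc, Finset.mul_sum] }
  have hker : LinearMap.ker Λ ≠ ⊥ := by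
    apply LinearMap.ker_ne_bot_of_finrank_lt
    rw [Module.finrank_fintype_fun_eq_card, Module.finrank_fintype_fun_eq_card,
      Fintype.card_prod, Fintype.card_fin, Fintype.card_coe, hTc, Fintype.card_fin]
    exact hM
  obtain ⟨α, hα, hα0⟩ := Submodule.exists_mem_ne_zero_of_ne_bot hker
  have hα' : ∀ a ∈ T, ∀ j, ∑ i, α i * (r i j).eval a = 0 := by
    intro a ha j
    have h1 : Λ α = 0 := hα
    exact congrFun h1 (⟨a, ha⟩, j)
  set π : k[X] := ∏ a ∈ T, (X - C a) with hπ
  have hR : ∀ j, ∃ R : k[X], ∑ i, C (α i) * r i j = π * R := by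
    intro j
    have h1 : π ∣ ∑ i, C (α i) * r i j := by
      rw [hπ]
      refine Finset.prod_dvd_of_coprime ?_ ?_
      · intro a _ a' _ haa'
        exact Polynomial.isCoprime_X_sub_C_of_isUnit_sub (sub_ne_zero.2 haa').isUnit
      · intro a ha
        rw [dvd_iff_isRoot, IsRoot.def, eval_finsetSum]
        rw [← hα' a ha j]
        refine Finset.sum_congr rfl (fun i _ => ?_)
        rw [eval_mul, eval_C]
    exact h1
  choose R hR using hR
  refine ⟨α, δ, π, ∑ j, algebraMap k⟮x⟯ E (toF x (R j)) * b1 j, ?_, hδ0, ?_, ?_, ?_, ?_, ?_⟩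
  · intro h0
    apply hα0
    rw [Fintype.linearIndependent_iff] at hw
    funext i
    exact hw α h0 i
  · rw [hπ]
    refine IsCoprime.prod_left fun a ha => ?_
    rw [(Polynomial.irreducible_X_sub_C a).coprime_iff_not_dvd, dvd_iff_isRoot]
    exact hTs a ha
  · rw [hπ, natDegree_prod_of_monic _ _ fun a _ => monic_X_sub_C a]
    simp [hTc]
  · exact (monic_prod_of_monic _ _ fun a _ => monic_X_sub_C a).ne_zero
  · have h1 : ∀ i, algebraMap k⟮x⟯ E (toF x δ) * w i =
        ∑ j, algebraMap k⟮x⟯ E (toF x (r i j)) * b1 j := by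
      intro i
      conv_lhs => rw [← b1.sum_repr (w i)]
      rw [Finset.mul_sum]
      refine Finset.sum_congr rfl (fun j _ => ?_)
      rw [Algebra.smul_def, ← mul_assoc, ← map_mul, hr]
    have h2 : ∀ (a : k) (y : E), a • y = algebraMap k⟮x⟯ E (toF x (C a)) * y := by
      intro a y
      have h3 : toF x (C a) = algebraMap k k⟮x⟯ a := by
        unfold toF
        exact aeval_C _ _
      rw [h3, ← Algebra.smul_def, algebraMap_smul]
    calc algebraMap k⟮x⟯ E (toF x δ) * ∑ i, α i • w i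
        = ∑ i, algebraMap k⟮x⟯ E (toF x (C (α i))) * (algebraMap k⟮x⟯ E (toF x δ) * w i) := by
          rw [Finset.mul_sum]
          refine Finset.sum_congr rfl (fun i _ => ?_)
          rw [h2]
          ring
      _ = ∑ i, ∑ j, algebraMap k⟮x⟯ E (toF x (C (α i) * r i j)) * b1 j := by
          refine Finset.sum_congr rfl (fun i _ => ?_)
          rw [h1, Finset.mul_sum]
          refine Finset.sum_congr rfl (fun j _ => ?_)
          rw [map_mul, map_mul, mul_assoc]
      _ = ∑ j, algebraMap k⟮x⟯ E (toF x (∑ i, C (α i) * r i j)) * b1 j := by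
          rw [Finset.sum_comm]
          refine Finset.sum_congr rfl (fun j _ => ?_)
          rw [map_sum, map_sum, Finset.sum_mul]
      _ = algebraMap k⟮x⟯ E (toF x π) * ∑ j, algebraMap k⟮x⟯ E (toF x (R j)) * b1 j := by
          rw [Finset.mul_sum]
          refine Finset.sum_congr rfl (fun j _ => ?_)
          rw [hR, map_mul, map_mul, mul_assoc]
  · intro p τ
    rw [map_sum]
    refine Valuation.map_sum_le _ fun j _ => ?_
    rw [map_mul, τ.commutes, algebraMap_toF, map_mul]
    exact mul_le_one' (vp_le_one hx p _) (hb1 j p τ)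

open IntermediateField in
/-- The dimension bound. -/
lemma dim_bound [IsAlgClosed L] [CharZero k] {x : L} (hx : Transcendental k x)
    (E : IntermediateField k⟮x⟯ L) [FiniteDimensional k⟮x⟯ E] {D : ℕ} {u : E}
    (h : Star hx E D u) {M : ℕ} (w : Fin M → E) (hwu : ∀ i, w i ∈ Lu hx E u)
    (hw : LinearIndependent k w) : M ≤ 2 * D := by
  set e := Module.finrank k⟮x⟯ E with he
  have heD : e ≤ D := finrank_le_of_star hx E h
  have hepos : 0 < e := Module.finrank_pos
  by_contra hlt
  rw [not_le] at hlt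
  have hs : (D / e + 1) * e ≤ D + e := by
    rw [add_mul, one_mul]
    exact Nat.add_le_add_right (Nat.div_mul_le_self D e) e
  have hs2 : D < (D / e + 1) * e := (Nat.div_lt_iff_lt_mul hepos).1 (Nat.lt_succ_self _)
  obtain ⟨α, δ, π, b, hy0, hδ0, hcop, hπd, hπ0, heq, hb⟩ := exists_comb hx E w hw
    (s := D / e + 1) (lt_of_le_of_lt hs (by omega))
  set y := ∑ i, α i • w i with hy
  have hyL : y ∈ Lu hx E u := Submodule.sum_smul_mem _ _ fun i _ => hwu i
  obtain ⟨c, hc0, hcp, hci⟩ := star_mono hx E h hyL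
  have hinj := transcendental_iff_injective.1 hx
  have hNy : ∏ τ : E →ₐ[k⟮x⟯] L, τ y ≠ 0 := by
    refine Finset.prod_ne_zero_iff.2 fun τ _ => ?_
    exact fun h0 => hy0 (τ.injective (h0.trans (map_zero _).symm))
  obtain ⟨n, hn⟩ := exists_poly_of_le_one hx (aeval x c * ∏ τ : E →ₐ[k⟮x⟯] L, τ y) (by
    obtain ⟨r, s, hrs⟩ := norm_frac E y
    refine ⟨c * r, s, ?_⟩
    rw [hrs, map_mul, mul_div_assoc]) (fun p hp hi => by
    rw [map_mul, map_prod]
    refine le_trans (mul_le_mul' le_rfl ?_) (hcp p hp hi)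
    exact Finset.prod_le_prod' fun τ _ => le_max_right _ _)
  obtain ⟨nb, hnb⟩ := exists_poly_of_le_one hx (∏ τ : E →ₐ[k⟮x⟯] L, τ b) (norm_frac E b)
    (fun p hp hi => by
      rw [map_prod]
      exact Finset.prod_le_one' fun τ _ => hb p τ)
  have hn0 : n ≠ 0 := by
    rintro rfl
    rw [map_zero] at hn
    rcases mul_eq_zero.1 hn with h0 | h0
    · exact hc0 (hinj (h0.trans (map_zero _).symm))
    · exact hNy h0
  have hnD : n.natDegree ≤ D := by
    have h1 : (VI hx).valuation x ^ n.natDegree ≤ (VI hx).valuation x ^ D := by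
      rw [← vi_poly hx hn0, ← hn, map_mul, map_prod]
      refine le_trans (mul_le_mul' le_rfl ?_) hci
      exact Finset.prod_le_prod' fun τ _ => le_max_right _ _
    exact (pow_le_pow_iff_right₀ (vi_x hx)).1 h1
  have hprod : aeval x δ ^ e * ∏ τ : E →ₐ[k⟮x⟯] L, τ y =
      aeval x π ^ e * ∏ τ : E →ₐ[k⟮x⟯] L, τ b := by
    have h1 : ∀ τ : E →ₐ[k⟮x⟯] L, aeval x δ * τ y = aeval x π * τ b := by
      intro τ
      have h2 := congrArg τ heq
      rw [map_mul, map_mul, τ.commutes, τ.commutes, algebraMap_toF, algebraMap_toF] at h2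
      exact h2
    have h3 : e = (Finset.univ : Finset (E →ₐ[k⟮x⟯] L)).card := by
      rw [Finset.card_univ, card_hom E]
    rw [h3, ← Finset.prod_const, ← Finset.prod_const, ← Finset.prod_mul_distrib,
      ← Finset.prod_mul_distrib]
    exact Finset.prod_congr rfl fun τ _ => h1 τ
  have hpoly : δ ^ e * n = c * π ^ e * nb := by
    apply hinj
    rw [map_mul, map_mul, map_mul, map_pow, map_pow, ← hn, ← hnb]
    calc aeval x δ ^ e * (aeval x c * ∏ τ : E →ₐ[k⟮x⟯] L, τ y)
        = aeval x c * (aeval x δ ^ e * ∏ τ : E →ₐ[k⟮x⟯] L, τ y) := by ring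
      _ = _ := by rw [hprod]; ring
  have hdvd : π ^ e ∣ n := by
    have h1 : π ^ e ∣ δ ^ e * n := by
      rw [hpoly]
      exact Dvd.intro_left (c) (by ring) |>.mul_right nb
    exact (hcop.pow : IsCoprime (π ^ e) (δ ^ e)).dvd_of_dvd_mul_left h1
  have h1 := natDegree_le_of_dvd hdvd hn0
  rw [natDegree_pow, hπd] at h1
  rw [mul_comm] at hs2
  omega

end Pool.Agent.KStr
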