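import Pool.Agent.KStr.Dim

/-!
# The dimension bound over an algebraically closed field
-/

set_option autoImplicit false

namespace Pool.Agent.KStr

open Polynomial

variable {k L : Type} [Field k] [Field L] [Algebra k L]

lemma vp_C_eq {x : L} (hx : Transcendental k x) {p : k[X]} {c : k} (hc : c ≠ 0) :
    (VP hx p).valuation (algebraMap k L c) = 1 := by
  refine le_antisymm (vp_C hx p c) ?_
  have h2 := vp_C hx p c⁻¹
  rw [map_inv₀, map_inv₀] at h2
  have h0 : 0 < (VP hx p).valuation (algebraMap k L c) := by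
    rw [zero_lt_iff]
    exact (Valuation.ne_zero_iff _).2 ((_root_.map_ne_zero _).2 hc)
  exact (inv_le_one₀ h0).1 h2

open IntermediateField in
/-- Residues at a place of degree one. -/
lemma exists_residue [IsAlgClosed k] {x : L} (hx : Transcendental k x) (a : k) (y : L)
    (hy : IsAlgebraic k⟮x⟯ y) (hv : (VP hx (X - C a)).valuation y ≤ 1) :
    ∃ b : k, (VP hx (X - C a)).valuation (y - algebraMap k L b) < 1 := by
  obtain ⟨f, hf0, hf⟩ := exists_biv x y hy
  set φ := (aeval x : k[X] →ₐ[k] L).toRingHom with hφ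
  set v := (VP hx (X - C a)).valuation with hvdef
  have hirr : Irreducible (X - C a) := irreducible_X_sub_C a
  have hprime : Prime (C (X - C a) : k[X][X]) := prime_C_iff.2 hirr.prime
  obtain ⟨m, g, hg, hfg⟩ := WfDvdMonoid.max_power_factor hf0 hprime.irreducible
  have hgy : eval₂ φ y g = 0 := by
    rw [hfg, eval₂_mul, eval₂_pow, eval₂_C] at hf
    refine (mul_eq_zero.1 hf).resolve_left (pow_ne_zero _ fun h0 => ?_)
    exact X_sub_C_ne_zero a ((transcendental_iff_injective.1 hx) (h0.trans (map_zero _).symm))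
  set q : k[X] := g.map (evalRingHom a) with hq
  have hq0 : q ≠ 0 := by
    intro h0
    apply hg
    rw [C_dvd_iff_dvd_coeff]
    intro j
    rw [dvd_iff_isRoot, IsRoot.def]
    have h1 : q.coeff j = 0 := by rw [h0, coeff_zero]
    rw [hq, coeff_map] at h1
    exact h1
  have hval : v (aeval y q) < 1 := by
    have h1 : aeval y q = ∑ j ∈ Finset.range (g.natDegree + 1),
        (algebraMap k L ((g.coeff j).eval a) - φ (g.coeff j)) * y ^ j := by
      have h2 : aeval y q = ∑ j ∈ Finset.range (g.natDegree + 1),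
          algebraMap k L ((g.coeff j).eval a) * y ^ j := by
        rw [hq, aeval_def, eval₂_map, eval₂_eq_sum_range]
        rfl
      have h3 : ∑ j ∈ Finset.range (g.natDegree + 1), φ (g.coeff j) * y ^ j = 0 := by
        rw [← eval₂_eq_sum_range]
        exact hgy
      simp only [sub_mul]
      rw [Finset.sum_sub_distrib, h3, sub_zero, h2]
    rw [h1]
    refine Valuation.map_sum_lt _ one_ne_zero fun j _ => ?_
    rw [map_mul, map_pow]
    refine mul_lt_one_of_lt_of_le ?_ (pow_le_one₀ zero_le hv)
    have h2 : algebraMap k L ((g.coeff j).eval a) - φ (g.coeff j) =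
        aeval x (C ((g.coeff j).eval a) - g.coeff j) := by
      rw [map_sub, aeval_C]
      rfl
    rw [h2]
    refine vp_lt_one hx hirr.not_isUnit ?_
    rw [dvd_iff_isRoot, IsRoot.def, eval_sub, eval_C, sub_self]
  have hsplit : q = C q.leadingCoeff * (q.roots.map fun r => X - C r).prod :=
    (IsAlgClosed.splits q).eq_prod_roots
  by_contra hcon
  push Not at hcon
  have h4 : aeval y q = algebraMap k L q.leadingCoeff *
      (q.roots.map fun r => y - algebraMap k L r).prod := by
    conv_lhs => rw [hsplit]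
    rw [map_mul, aeval_C, map_multiset_prod, Multiset.map_map]
    congr 2
    refine Multiset.map_congr rfl fun r _ => ?_
    simp
  have h5 : 1 ≤ v (aeval y q) := by
    rw [h4, map_mul, hvdef, vp_C_eq hx (leadingCoeff_ne_zero.2 hq0), one_mul, map_multiset_prod,
      Multiset.map_map]
    refine Multiset.one_le_prod_of_one_le fun z hz => ?_
    obtain ⟨r, _, rfl⟩ := Multiset.mem_map.1 hz
    exact hcon r
  exact absurd hval (not_lt.2 h5)

open IntermediateField in
/-- The dimension bound over an algebraically closed field. -/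
lemma dim_bound_closed [IsAlgClosed k] [IsAlgClosed L] [CharZero k] {x : L}
    (hx : Transcendental k x) (E : IntermediateField k⟮x⟯ L) [FiniteDimensional k⟮x⟯ E] {D : ℕ}
    {u : E} (h : Star hx E D u) {M : ℕ} (w : Fin M → E) (hwu : ∀ i, w i ∈ Lu hx E u)
    (hw : LinearIndependent k w) : M ≤ D + 1 := by
  classical
  by_contra hlt
  rw [not_le] at hlt
  choose c hc0 hc using fun i => exists_den hx E (w i)
  set δ : k[X] := ∏ i, c i with hδ
  have hδ0 : δ ≠ 0 := Finset.prod_ne_zero_iff.2 fun i _ => hc0 i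
  obtain ⟨T, hTs, hTc⟩ : ∃ T : Finset k, (∀ a ∈ T, δ.eval a ≠ 0) ∧ T.card = D + 1 := by
    have hinf : {a : k | δ.eval a ≠ 0}.Infinite := by
      have h1 : {a : k | δ.eval a = 0}.Finite := by
        refine (δ.roots.toFinset.finite_toSet).subset ?_
        intro a ha
        rw [Finset.mem_coe, Multiset.mem_toFinset, mem_roots hδ0]
        exact ha
      exact h1.infinite_compl
    obtain ⟨T, hT1, hT2⟩ := hinf.exists_subset_card_eq (D + 1)
    exact ⟨T, fun a ha => hT1 ha, hT2⟩
  have hle : ∀ a ∈ T, ∀ i, ∀ τ : E →ₐ[k⟮x⟯] L, (VP hx (X - C a)).valuation (τ (w i)) ≤ 1 := by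
    intro a ha i τ
    have h1 : ¬ (X - C a) ∣ c i := by
      intro hd
      rw [dvd_iff_isRoot, IsRoot.def] at hd
      apply hTs a ha
      rw [hδ, eval_prod]
      exact Finset.prod_eq_zero (Finset.mem_univ i) hd
    have h2 := hc i (X - C a) τ
    rw [vp_eq_one hx (irreducible_X_sub_C a) h1, one_mul] at h2
    exact (le_max_right _ _).trans h2
  have halg : ∀ y : E, IsAlgebraic k⟮x⟯ (y : L) := fun y =>
    (Algebra.IsAlgebraic.isAlgebraic (R := k⟮x⟯) y).algebraMap (A := L)
  have hres : ∀ (a : T) (i : Fin M), ∃ b : k,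
      (VP hx (X - C a.1)).valuation ((w i : L) - algebraMap k L b) < 1 := fun a i =>
    exists_residue hx a.1 (w i) (halg _) (hle a.1 a.2 i E.val)
  choose b hb using hres
  let Λ : (Fin M → k) →ₗ[k] (T → k) :=
    { toFun := fun α a => ∑ i, α i * b a i
      map_add' := by
        intro α β
        funext q
        simp only [Pi.add_apply, add_mul, Finset.sum_add_distrib]
      map_smul' := by
        intro s α
        funext q
        simp only [Pi.smul_apply, smul_eq_mul, RingHom.id_apply, mul_assoc, Finset.mul_sum] }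
  have hker : LinearMap.ker Λ ≠ ⊥ := by
    apply LinearMap.ker_ne_bot_of_finrank_lt
    rw [Module.finrank_fintype_fun_eq_card, Module.finrank_fintype_fun_eq_card,
      Fintype.card_coe, hTc, Fintype.card_fin]
    exact hlt
  obtain ⟨α, hα, hα0⟩ := Submodule.exists_mem_ne_zero_of_ne_bot hker
  have hα' : ∀ a : T, ∑ i, α i * b a i = 0 := fun a => congrFun (show Λ α = 0 from hα) a
  set y := ∑ i, α i • w i with hy
  have hy0 : y ≠ 0 := by
    intro h0
    apply hα0
    rw [Fintype.linearIndependent_iff] at hw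
    funext i
    exact hw α h0 i
  have hτsmul : ∀ (τ : E →ₐ[k⟮x⟯] L) (s : k) (z : E), τ (s • z) = algebraMap k L s * τ z := by
    intro τ s z
    have h1 : s • z = algebraMap k⟮x⟯ E (algebraMap k k⟮x⟯ s) * z := by
      rw [← Algebra.smul_def, algebraMap_smul]
    rw [h1, map_mul, τ.commutes]
    rfl
  have hτy : ∀ a ∈ T, ∀ τ : E →ₐ[k⟮x⟯] L, (VP hx (X - C a)).valuation (τ y) ≤ 1 := by
    intro a ha τ
    rw [hy, map_sum]
    refine Valuation.map_sum_le _ fun i _ => ?_
    rw [hτsmul, map_mul]
    exact mul_le_one' (vp_C hx _ _) (hle a ha i τ)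
  have hyval : ∀ a ∈ T, (VP hx (X - C a)).valuation (E.val y) < 1 := by
    intro a ha
    have h1 : E.val y = ∑ i, algebraMap k L (α i) * ((w i : L) - algebraMap k L (b ⟨a, ha⟩ i)) := by
      have h2 : ∑ i, algebraMap k L (α i) * algebraMap k L (b ⟨a, ha⟩ i) = 0 := by
        have h3 := congrArg (algebraMap k L) (hα' ⟨a, ha⟩)
        rw [map_sum, map_zero] at h3
        simpa only [map_mul] using h3
      simp only [mul_sub]
      rw [Finset.sum_sub_distrib, h2, sub_zero, hy, map_sum]
      exact Finset.sum_congr rfl fun i _ => hτsmul E.val (α i) (w i)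
    rw [h1]
    refine Valuation.map_sum_lt _ one_ne_zero fun i _ => ?_
    rw [map_mul, mul_comm]
    exact mul_lt_one_of_lt_of_le (hb ⟨a, ha⟩ i) (vp_C hx _ _)
  have hyL : y ∈ Lu hx E u := Submodule.sum_smul_mem _ _ fun i _ => hwu i
  obtain ⟨c', hc0', hcp, hci⟩ := star_mono hx E h hyL
  have hinj := transcendental_iff_injective.1 hx
  have hNy : ∏ τ : E →ₐ[k⟮x⟯] L, τ y ≠ 0 := by
    refine Finset.prod_ne_zero_iff.2 fun τ _ => ?_
    exact fun h0 => hy0 (τ.injective (h0.trans (map_zero _).symm))
  obtain ⟨n, hn⟩ := exists_poly_of_le_one hx (aeval x c' * ∏ τ : E →ₐ[k⟮x⟯] L, τ y) (by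
    obtain ⟨r, s, hrs⟩ := norm_frac E y
    refine ⟨c' * r, s, ?_⟩
    rw [hrs, map_mul, mul_div_assoc]) (fun p hp hi => by
    rw [map_mul, map_prod]
    refine le_trans (mul_le_mul' le_rfl ?_) (hcp p hp hi)
    exact Finset.prod_le_prod' fun τ _ => le_max_right _ _)
  have hn0 : n ≠ 0 := by
    rintro rfl
    rw [map_zero] at hn
    rcases mul_eq_zero.1 hn with h0 | h0
    · exact hc0' (hinj (h0.trans (map_zero _).symm))
    · exact hNy h0
  have hnD : n.natDegree ≤ D := by
    have h1 : (VI hx).valuation x ^ n.natDegree ≤ (VI hx).valuation x ^ D := by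
      rw [← vi_poly hx hn0, ← hn, map_mul, map_prod]
      refine le_trans (mul_le_mul' le_rfl ?_) hci
      exact Finset.prod_le_prod' fun τ _ => le_max_right _ _
    exact (pow_le_pow_iff_right₀ (vi_x hx)).1 h1
  have hroot : ∀ a ∈ T, n.IsRoot a := by
    intro a ha
    rw [← dvd_iff_isRoot]
    by_contra hnd
    have h1 := vp_eq_one hx (irreducible_X_sub_C a) hnd
    rw [← hn, map_mul, map_prod] at h1
    have h2 : ∏ τ : E →ₐ[k⟮x⟯] L, (VP hx (X - C a)).valuation (τ y) < 1 := by
      rw [← Finset.mul_prod_erase _ _ (Finset.mem_univ E.val)]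
      exact mul_lt_one_of_lt_of_le (hyval a ha) (Finset.prod_le_one' fun τ _ => hτy a ha τ)
    have h3 : (VP hx (X - C a)).valuation (aeval x c') *
        ∏ τ : E →ₐ[k⟮x⟯] L, (VP hx (X - C a)).valuation (τ y) < 1 := by
      rw [mul_comm]
      exact mul_lt_one_of_lt_of_le h2 (vp_le_one hx _ _)
    rw [h1] at h3
    exact lt_irrefl _ h3
  have hcard : T.card ≤ n.natDegree := by
    have h1 : T ⊆ n.roots.toFinset := by
      intro a ha
      rw [Multiset.mem_toFinset, mem_roots hn0]
      exact hroot a ha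
    exact (Finset.card_le_card h1).trans ((Multiset.toFinset_card_le _).trans (card_roots' n))
  omega

end Pool.Agent.KStr
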