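import Pool.Agent.KAA.PI

/-!
# Hermite: transcendence of `e`
-/

set_option autoImplicit false

namespace Pool.Agent.KStr

open Polynomial

lemma hermite_aux (q : ℤ[X]) (hq0 : q.coeff 0 ≠ 0) (hq : aeval (Complex.exp 1) q = 0) : False := by
  classical
  set N := q.natDegree with hN
  set f : ℤ[X] := ∏ j ∈ Finset.range N, (X - C ((j : ℤ) + 1)) with hf
  have hf0 : f.eval 0 ≠ 0 := by
    rw [hf, eval_prod]
    refine Finset.prod_ne_zero_iff.2 fun j _ => ?_
    rw [eval_sub, eval_X, eval_C]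
    omega
  have hfne : f ≠ 0 := by rintro h; rw [h] at hf0; simp at hf0
  obtain ⟨c, hc⟩ := LindemannWeierstrass.exp_polynomial_approx f hf0
  set K : ℝ := ∑ j ∈ Finset.range N, |(q.coeff (j + 1) : ℝ)| with hK
  obtain ⟨p, hp1, hp2, hp3⟩ := KAA.PI.exists_prime K 1 c
    (max (eval 0 f).natAbs (q.coeff 0).natAbs)
  have hp4 : (eval 0 f).natAbs < p := lt_of_le_of_lt (le_max_left _ _) hp1
  have hp5 : (q.coeff 0).natAbs < p := lt_of_le_of_lt (le_max_right _ _) hp1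
  obtain ⟨n, hn, gp, _, happ⟩ := hc p hp4 hp2
  have hroot : ∀ j ∈ Finset.range N, ((j : ℂ) + 1) ∈ f.aroots ℂ := by
    intro j hj
    rw [mem_aroots]
    refine ⟨hfne, ?_⟩
    rw [hf, map_prod]
    refine Finset.prod_eq_zero hj ?_
    simp
  have hexp : ∀ j : ℕ, Complex.exp ((j : ℂ) + 1) = Complex.exp 1 ^ (j + 1) := by
    intro j
    rw [← Complex.exp_nat_mul]
    congr 1
    push_cast
    ring
  have hsum : (q.coeff 0 : ℂ) + ∑ j ∈ Finset.range N,
      (q.coeff (j + 1) : ℂ) * Complex.exp ((j : ℂ) + 1) = 0 := by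
    rw [aeval_eq_sum_range, Finset.sum_range_succ'] at hq
    rw [← hN] at hq
    simp only [zsmul_eq_mul, pow_zero, mul_one] at hq
    rw [add_comm, ← hq]
    congr 1
    exact Finset.sum_congr rfl fun j _ => by rw [hexp]
  set W : ℤ := n * q.coeff 0 + p * ∑ j ∈ Finset.range N,
    q.coeff (j + 1) * gp.eval ((j : ℤ) + 1) with hW
  have hgp : ∀ j : ℕ, aeval ((j : ℂ) + 1) gp = ((gp.eval ((j : ℤ) + 1) : ℤ) : ℂ) := by
    intro j
    have h1 : ((j : ℂ) + 1) = algebraMap ℤ ℂ ((j : ℤ) + 1) := by simp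
    rw [h1, aeval_algebraMap_apply]
    simp
  have hWC : (W : ℂ) = -∑ j ∈ Finset.range N, (q.coeff (j + 1) : ℂ) *
      (n • Complex.exp ((j : ℂ) + 1) - p • aeval ((j : ℂ) + 1) gp) := by
    have h1 : ∑ j ∈ Finset.range N, (q.coeff (j + 1) : ℂ) *
        (n • Complex.exp ((j : ℂ) + 1) - p • aeval ((j : ℂ) + 1) gp) =
        n * ∑ j ∈ Finset.range N, (q.coeff (j + 1) : ℂ) * Complex.exp ((j : ℂ) + 1) -
        p * ∑ j ∈ Finset.range N, (q.coeff (j + 1) : ℂ) * ((gp.eval ((j : ℤ) + 1) : ℤ) : ℂ) := by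
      rw [Finset.mul_sum, Finset.mul_sum, ← Finset.sum_sub_distrib]
      refine Finset.sum_congr rfl fun j _ => ?_
      rw [hgp, zsmul_eq_mul, nsmul_eq_mul]
      ring
    have h2 : ∑ j ∈ Finset.range N, (q.coeff (j + 1) : ℂ) * Complex.exp ((j : ℂ) + 1) =
        -(q.coeff 0 : ℂ) := by linear_combination hsum
    rw [h1, h2, hW]
    push_cast
    ring
  have hWlt : ‖(W : ℂ)‖ < 1 := by
    rw [hWC, norm_neg]
    refine lt_of_le_of_lt (norm_sum_le _ _) ?_
    have h1 : ∑ j ∈ Finset.range N, ‖(q.coeff (j + 1) : ℂ) *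
        (n • Complex.exp ((j : ℂ) + 1) - p • aeval ((j : ℂ) + 1) gp)‖ ≤
        ∑ j ∈ Finset.range N, |(q.coeff (j + 1) : ℝ)| * (c ^ p / (p - 1).factorial) := by
      refine Finset.sum_le_sum fun j hj => ?_
      rw [norm_mul, Complex.norm_intCast]
      exact mul_le_mul_of_nonneg_left (happ (hroot j hj)) (abs_nonneg _)
    refine lt_of_le_of_lt h1 ?_
    rw [← Finset.sum_mul, ← hK]
    rw [one_pow, one_mul] at hp3
    exact hp3
  have hW0 : W = 0 := by
    rw [Complex.norm_intCast] at hWlt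
    have h1 : |W| < 1 := by exact_mod_cast hWlt
    exact Int.abs_lt_one_iff.1 h1
  have hdvd : (p : ℤ) ∣ n * q.coeff 0 := by
    have h1 : n * q.coeff 0 = -(p * ∑ j ∈ Finset.range N,
        q.coeff (j + 1) * gp.eval ((j : ℤ) + 1)) := by linarith
    rw [h1]
    exact (dvd_mul_right _ _).neg_right
  rcases (Nat.prime_iff_prime_int.1 hp2).dvd_or_dvd hdvd with h | h
  · exact hn h
  · have h2 := Int.natAbs_dvd_natAbs.2 h
    rw [Int.natAbs_natCast] at h2
    exact absurd (Nat.le_of_dvd (Int.natAbs_pos.2 hq0) h2) (not_le.2 hp5)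

/-- Hermite's theorem. -/
theorem transcendental_exp_one : Transcendental ℚ (Complex.exp 1) := by
  intro h
  obtain ⟨q, hq, hq0⟩ := (IsFractionRing.isAlgebraic_iff ℤ ℚ ℂ).2 h
  obtain ⟨g, hg, hgd⟩ := Polynomial.exists_eq_pow_rootMultiplicity_mul_and_not_dvd q hq 0
  rw [hg, map_mul, map_pow] at hq0
  have h1 : aeval (Complex.exp 1) (X - C (0 : ℤ)) ≠ 0 := by
    simp
  refine hermite_aux g ?_ ((mul_eq_zero.1 hq0).resolve_left (pow_ne_zero _ h1))
  intro h2
  apply hgd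
  rw [C_0, sub_zero, X_dvd_iff]
  exact h2

end Pool.Agent.KStr
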