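import Pool.Agent.KStr.Rel

/-!
# Finitely many subspaces
-/

set_option autoImplicit false

namespace Pool.Agent.KStr

open Polynomial

variable {k L : Type} [Field k] [Field L] [Algebra k L]

open IntermediateField in
open scoped IntermediateField.algebraAdjoinAdjoin in
lemma exists_biv (x y : L) (hy : IsAlgebraic k⟮x⟯ y) :
    ∃ f : k[X][X], f ≠ 0 ∧ eval₂ (aeval x : k[X] →ₐ[k] L).toRingHom y f = 0 := by
  have h1 : IsAlgebraic (Algebra.adjoin k {x}) y :=
    (IsFractionRing.isAlgebraic_iff (Algebra.adjoin k {x}) k⟮x⟯ L).2 hy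
  obtain ⟨P, hP0, hP⟩ := h1
  have hmem : P.map (algebraMap (Algebra.adjoin k {x}) L) ∈
      lifts (aeval x : k[X] →ₐ[k] L).toRingHom := by
    rw [lifts_iff_coeff_lifts]
    intro j
    rw [coeff_map]
    exact (Algebra.adjoin_singleton_eq_range_aeval k x).le (P.coeff j).2
  obtain ⟨f, hf⟩ := (mem_lifts _).1 hmem
  have hinj : Function.Injective (algebraMap (Algebra.adjoin k {x}) L) := Subtype.val_injective
  refine ⟨f, ?_, ?_⟩
  · rintro rfl
    rw [Polynomial.map_zero] at hf
    exact (Polynomial.map_ne_zero_iff hinj).2 hP0 hf.symm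
  · rw [← eval_map, hf, eval_map]
    exact hP

open IntermediateField in
lemma exists_den [IsAlgClosed L] {x : L} (hx : Transcendental k x)
    (E : IntermediateField k⟮x⟯ L) [FiniteDimensional k⟮x⟯ E] (y : E) :
    ∃ c : k[X], c ≠ 0 ∧ ∀ p : k[X], ∀ τ : E →ₐ[k⟮x⟯] L,
      (VP hx p).valuation (aeval x c) * max 1 ((VP hx p).valuation (τ y)) ≤ 1 := by
  have hy : IsAlgebraic k⟮x⟯ (y : L) := by
    have h1 : IsAlgebraic k⟮x⟯ y := Algebra.IsAlgebraic.isAlgebraic y
    exact h1.algebraMap (A := L)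
  obtain ⟨f, hf0, hf⟩ := exists_biv x (y : L) hy
  set φ := (aeval x : k[X] →ₐ[k] L).toRingHom with hφ
  have hinj : Function.Injective φ := transcendental_iff_injective.1 hx
  have hG0 : f.map φ ≠ 0 := (Polynomial.map_ne_zero_iff hinj).2 hf0
  refine ⟨f.leadingCoeff, leadingCoeff_ne_zero.2 hf0, fun p τ => ?_⟩
  have hr : τ y ∈ (f.map φ).roots := by
    rw [mem_roots hG0, IsRoot.def, eval_map]
    exact conj_root E τ y f hf
  have h1 := roots_bound (v := (VP hx p).valuation) (ρ := 1) (g := 1) le_rfl (f.map φ) {τ y}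
    (Multiset.singleton_le.2 hr) (fun j => by
      rw [one_pow, mul_one, coeff_map]; exact vp_le_one hx p _)
  rw [leadingCoeff_map_of_injective hinj f, Multiset.map_singleton, Multiset.prod_singleton] at h1
  exact h1

lemma vp_C {x : L} (hx : Transcendental k x) (p : k[X]) (c : k) :
    (VP hx p).valuation (algebraMap k L c) ≤ 1 := by
  have h := vp_le_one hx p (C c)
  rw [aeval_C] at h
  exact h

lemma vi_C_le {x : L} (hx : Transcendental k x) (c : k) :
    (VI hx).valuation (algebraMap k L c) ≤ 1 := by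
  by_cases hc : c = 0
  · rw [hc, map_zero, map_zero]
    exact zero_le
  · exact (vi_C hx hc).le

open IntermediateField in
/-- The elements whose profile is at most the profile of `u`. -/
noncomputable def Lu {x : L} (hx : Transcendental k x) (E : IntermediateField k⟮x⟯ L) (u : E) :
    Submodule k E where
  carrier := {w | (∀ p : k[X], p.Monic → Irreducible p → ∀ τ : E →ₐ[k⟮x⟯] L,
      (VP hx p).valuation (τ w) ≤ max 1 ((VP hx p).valuation (τ u))) ∧
    ∀ τ : E →ₐ[k⟮x⟯] L,
      (VI hx).valuation (τ w) ≤ max ((VI hx).valuation x) ((VI hx).valuation (τ u))}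
  add_mem' := by
    rintro a b ⟨ha1, ha2⟩ ⟨hb1, hb2⟩
    refine ⟨fun p hp hi τ => ?_, fun τ => ?_⟩
    · rw [map_add]
      exact ((VP hx p).valuation.map_add _ _).trans (max_le (ha1 p hp hi τ) (hb1 p hp hi τ))
    · rw [map_add]
      exact ((VI hx).valuation.map_add _ _).trans (max_le (ha2 τ) (hb2 τ))
  zero_mem' := by
    refine ⟨fun p hp hi τ => ?_, fun τ => ?_⟩
    · rw [map_zero, map_zero]
      exact zero_le
    · rw [map_zero, map_zero]
      exact zero_le
  smul_mem' := by
    rintro c a ⟨ha1, ha2⟩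
    have hτ : ∀ τ : E →ₐ[k⟮x⟯] L, τ (c • a) = algebraMap k L c * τ a := by
      intro τ
      have h1 : c • a = algebraMap k⟮x⟯ E (algebraMap k k⟮x⟯ c) * a := by
        rw [← Algebra.smul_def, algebraMap_smul]
      rw [h1, map_mul, τ.commutes]
      rfl
    refine ⟨fun p hp hi τ => ?_, fun τ => ?_⟩
    · rw [hτ, map_mul]
      exact mul_le_of_le_one_of_le (vp_C hx p c) (ha1 p hp hi τ)
    · rw [hτ, map_mul]
      exact mul_le_of_le_one_of_le (vi_C_le hx c) (ha2 τ)

open IntermediateField in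
lemma self_mem_Lu {x : L} (hx : Transcendental k x) (E : IntermediateField k⟮x⟯ L) (u : E) :
    u ∈ Lu hx E u :=
  ⟨fun _ _ _ _ => le_max_right _ _, fun _ => le_max_right _ _⟩

open IntermediateField in
lemma one_mem_Lu {x : L} (hx : Transcendental k x) (E : IntermediateField k⟮x⟯ L) (u : E) :
    (1 : E) ∈ Lu hx E u := by
  refine ⟨fun _ _ _ τ => ?_, fun τ => ?_⟩
  · rw [map_one, map_one]
    exact le_max_left _ _
  · rw [map_one, map_one]
    exact (vi_x hx).le.trans (le_max_left _ _)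

open IntermediateField in
lemma x_mem_Lu {x : L} (hx : Transcendental k x) (E : IntermediateField k⟮x⟯ L) (u : E) :
    algebraMap k⟮x⟯ E (AdjoinSimple.gen k x) ∈ Lu hx E u := by
  have h : ∀ τ : E →ₐ[k⟮x⟯] L, τ (algebraMap k⟮x⟯ E (AdjoinSimple.gen k x)) = x := by
    intro τ
    rw [τ.commutes]
    exact AdjoinSimple.algebraMap_gen k x
  refine ⟨fun p _ _ τ => ?_, fun τ => ?_⟩
  · rw [h]
    have h1 := vp_le_one hx p X
    rw [aeval_X] at h1
    exact h1.trans (le_max_left _ _)
  · rw [h]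
    exact le_max_left _ _

open IntermediateField in
lemma star_mono {x : L} (hx : Transcendental k x) (E : IntermediateField k⟮x⟯ L)
    [FiniteDimensional k⟮x⟯ E] {D : ℕ} {u w : E} (h : Star hx E D u) (hw : w ∈ Lu hx E u) :
    Star hx E D w := by
  obtain ⟨c, hc0, hcp, hci⟩ := h
  refine ⟨c, hc0, fun p hp hi => ?_, ?_⟩
  · refine le_trans (mul_le_mul' le_rfl ?_) (hcp p hp hi)
    exact Finset.prod_le_prod' fun τ _ => max_le (le_max_left _ _) (hw.1 p hp hi τ)
  · refine le_trans (mul_le_mul' le_rfl ?_) hci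
    exact Finset.prod_le_prod' fun τ _ => max_le (le_max_left _ _) (hw.2 τ)

/-- A chain of subspaces of a finite dimensional space is finite. -/
lemma finite_chain {V : Type} [AddCommGroup V] [Module ℚ V] (Y : Submodule ℚ V)
    [Module.Finite ℚ Y] (T : Set (Submodule ℚ V)) (hT : ∀ A ∈ T, A ≤ Y)
    (hc : ∀ A ∈ T, ∀ B ∈ T, A ≤ B ∨ B ≤ A) : T.Finite := by
  have hfin : ∀ A ∈ T, Module.Finite ℚ A := fun A hA =>
    Submodule.finiteDimensional_of_le (hT A hA)
  refine Set.Finite.of_finite_image (f := fun A : Submodule ℚ V => Module.finrank ℚ A) ?_ ?_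
  · refine (Set.finite_Iic (Module.finrank ℚ Y)).subset ?_
    rintro _ ⟨A, hA, rfl⟩
    exact Submodule.finrank_mono (hT A hA)
  · intro A hA B hB hAB
    have := hfin A hA
    have := hfin B hB
    rcases hc A hA B hB with h | h
    · exact Submodule.eq_of_le_of_finrank_eq h hAB
    · exact (Submodule.eq_of_le_of_finrank_eq h hAB.symm).symm

/-- The elements of `E` with `v (τ w) ≤ g`. -/
def lvl {F : Type} [Field F] [Algebra F L] {E : Type} [Field E] [Algebra F E] [Algebra k F]
    [Algebra k E] [IsScalarTower k F E] [IsScalarTower k F L]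
    {Γ₀ : Type} [LinearOrderedCommGroupWithZero Γ₀]
    (v : Valuation L Γ₀) (hv : ∀ c : k, v (algebraMap k L c) ≤ 1) (τ : E →ₐ[F] L) (g : Γ₀) :
    Submodule k E where
  carrier := {w | v (τ w) ≤ g}
  add_mem' := by
    intro a b ha hb
    simp only [Set.mem_ofPred_eq] at *
    rw [map_add]
    exact (v.map_add _ _).trans (max_le ha hb)
  zero_mem' := by
    simp only [Set.mem_ofPred_eq]
    rw [map_zero, map_zero]
    exact zero_le
  smul_mem' := by
    intro c a ha
    simp only [Set.mem_ofPred_eq] at *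
    have hτ : τ (c • a) = algebraMap k L c * τ a := by
      have h1 : c • a = algebraMap F E (algebraMap k F c) * a := by
        rw [← Algebra.smul_def, algebraMap_smul]
      rw [h1, map_mul, τ.commutes, ← IsScalarTower.algebraMap_apply]
    rw [hτ, map_mul]
    exact mul_le_of_le_one_of_le (hv c) ha

lemma lvl_mono {F : Type} [Field F] [Algebra F L] {E : Type} [Field E] [Algebra F E] [Algebra k F]
    [Algebra k E] [IsScalarTower k F E] [IsScalarTower k F L]
    {Γ₀ : Type} [LinearOrderedCommGroupWithZero Γ₀]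
    (v : Valuation L Γ₀) (hv : ∀ c : k, v (algebraMap k L c) ≤ 1) (τ : E →ₐ[F] L) {g g' : Γ₀}
    (h : g ≤ g') (w : E) (hw : w ∈ lvl v hv τ g) : w ∈ lvl v hv τ g' :=
  le_trans (show v (τ w) ≤ g from hw) h

open IntermediateField in
lemma finite_spaces [IsAlgClosed L] [CharZero k] [CharZero L] {x : L}
    (hx : Transcendental k x) (E : IntermediateField k⟮x⟯ L) [FiniteDimensional k⟮x⟯ E]
    (Y : Submodule ℚ E) [Module.Finite ℚ Y] :
    {W : Submodule ℚ E | ∃ u : E, W = Y ⊓ (Lu hx E u).restrictScalars ℚ}.Finite := by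
  classical
  obtain ⟨c, hc0, hc⟩ : ∃ c : k[X], c ≠ 0 ∧ ∀ p : k[X], Irreducible p → ¬ p ∣ c →
      ∀ τ : E →ₐ[k⟮x⟯] L, ∀ y ∈ Y, (VP hx p).valuation (τ y) ≤ 1 := by
    obtain ⟨s, hs⟩ := (Module.Finite.iff_fg.1 ‹Module.Finite ℚ Y› : Y.FG)
    choose c hc0 hc using exists_den hx E
    refine ⟨∏ y ∈ s, c y, Finset.prod_ne_zero_iff.2 (fun y _ => hc0 y), fun p hp hpc τ => ?_⟩
    have h1 : Y ≤ (lvl (VP hx p).valuation (vp_C hx p) τ 1).restrictScalars ℚ := by
      rw [← hs, Submodule.span_le]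
      intro y hy
      have h2 : ¬ p ∣ c y := fun h => hpc (h.trans (Finset.dvd_prod_of_mem c hy))
      have h3 := hc y p τ
      rw [vp_eq_one hx hp h2, one_mul] at h3
      exact (le_max_right _ _).trans h3
    exact fun y hy => h1 hy
  set S : Finset k[X] := (UniqueFactorizationMonoid.normalizedFactors c).toFinset with hS
  have hSmem : ∀ p : k[X], p.Monic → Irreducible p → p ∉ S → ¬ p ∣ c := by
    intro p hp hi hn hd
    apply hn
    rw [hS, Multiset.mem_toFinset, UniqueFactorizationMonoid.mem_normalizedFactors_iff' hc0]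
    exact ⟨hi, hp.normalize_eq_self, hd⟩
  let B : ((S × (E →ₐ[k⟮x⟯] L)) ⊕ (E →ₐ[k⟮x⟯] L)) → E → Submodule ℚ E := fun i u =>
    match i with
    | Sum.inl (p, τ) => Y ⊓ (lvl (VP hx p.1).valuation (vp_C hx p.1) τ
        (max 1 ((VP hx p.1).valuation (τ u)))).restrictScalars ℚ
    | Sum.inr τ => Y ⊓ (lvl (VI hx).valuation (vi_C_le hx) τ
        (max ((VI hx).valuation x) ((VI hx).valuation (τ u)))).restrictScalars ℚ
  have hBfin : ∀ i, (Set.range (B i)).Finite := by
    intro i
    refine finite_chain Y _ ?_ ?_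
    · rintro _ ⟨u, rfl⟩
      rcases i with ⟨p, τ⟩ | τ <;> exact inf_le_left
    · rintro _ ⟨u, rfl⟩ _ ⟨u', rfl⟩
      rcases i with ⟨p, τ⟩ | τ
      · rcases le_total (max 1 ((VP hx p.1).valuation (τ u))) (max 1 ((VP hx p.1).valuation (τ u')))
          with h | h
        · exact Or.inl (inf_le_inf le_rfl fun w hw => lvl_mono (VP hx p.1).valuation (vp_C hx p.1) τ h w hw)
        · exact Or.inr (inf_le_inf le_rfl fun w hw => lvl_mono (VP hx p.1).valuation (vp_C hx p.1) τ h w hw)
      · rcases le_total (max ((VI hx).valuation x) ((VI hx).valuation (τ u)))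
          (max ((VI hx).valuation x) ((VI hx).valuation (τ u'))) with h | h
        · exact Or.inl (inf_le_inf le_rfl fun w hw => lvl_mono (VI hx).valuation (vi_C_le hx) τ h w hw)
        · exact Or.inr (inf_le_inf le_rfl fun w hw => lvl_mono (VI hx).valuation (vi_C_le hx) τ h w hw)
  refine ((Set.Finite.pi' hBfin).image fun g => Y ⊓ ⨅ i, g i).subset ?_
  rintro W ⟨u, rfl⟩
  refine ⟨fun i => B i u, fun i => ⟨u, rfl⟩, ?_⟩
  apply le_antisymm
  · refine le_inf inf_le_left ?_
    intro w hw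
    obtain ⟨hwY, hw⟩ := hw
    have hw' : ∀ i, w ∈ B i u := fun i => (Submodule.mem_iInf _).1 hw i
    refine ⟨fun p hp hi τ => ?_, fun τ => ?_⟩
    · by_cases hpS : p ∈ S
      · exact (hw' (Sum.inl (⟨p, hpS⟩, τ))).2
      · exact (hc p hi (hSmem p hp hi hpS) τ w hwY).trans (le_max_left _ _)
    · exact (hw' (Sum.inr τ)).2
  · refine le_inf inf_le_left (le_iInf fun i => ?_)
    rcases i with ⟨p, τ⟩ | τ
    · refine le_inf inf_le_left ?_
      rintro w ⟨_, hw⟩
      obtain ⟨hi, hn, _⟩ := (UniqueFactorizationMonoid.mem_normalizedFactors_iff' hc0).1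
        (Multiset.mem_toFinset.1 p.2)
      have hmon : p.1.Monic := by
        rw [← hn]
        exact Polynomial.monic_normalize hi.ne_zero
      exact hw.1 p.1 hmon hi τ
    · refine le_inf inf_le_left ?_
      rintro w ⟨_, hw⟩
      exact hw.2 τ

end Pool.Agent.KStr
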