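import Pool.Agent.KStr.Dim2

/-!
# The structure theorem
-/

set_option autoImplicit false

namespace Pool.Agent.KStr

open Polynomial

variable {k L : Type} [Field k] [Field L] [Algebra k L]

open IntermediateField in
lemma isAlgebraic_of_rel {x : L} (hx : Transcendental k x) {D : ℕ} {u : L} (h : Rel k x D u) :
    IsAlgebraic k⟮x⟯ u := by
  obtain ⟨f, hf0, _, hfu⟩ := h
  refine ⟨f.map (toF x), (Polynomial.map_ne_zero_iff (toF_injective hx)).2 hf0, ?_⟩
  rw [aeval_def, eval₂_map]
  have h1 : (algebraMap k⟮x⟯ L).comp (toF x) = (aeval x : k[X] →ₐ[k] L).toRingHom :=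
    RingHom.ext fun r => algebraMap_toF x r
  rw [h1]
  exact hfu

set_option linter.unusedSectionVars false

variable [CharZero k] [CharZero L]

open IntermediateField in
/-- The inclusion of an intermediate field, as a map of rational vector spaces. -/
noncomputable def vq {x : L} (E : IntermediateField k⟮x⟯ L) : E →ₗ[ℚ] L :=
  (E.val.toRingHom.toAddMonoidHom).toRatLinearMap

open IntermediateField in
lemma vq_apply {x : L} (E : IntermediateField k⟮x⟯ L) (y : E) : vq E y = (y : L) := rfl

open IntermediateField in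
lemma vq_injective {x : L} (E : IntermediateField k⟮x⟯ L) : Function.Injective (vq E) :=
  Subtype.val_injective

open IntermediateField in
/-- The subspaces of elements with bounded profile, for all intermediate fields of `K`. -/
def spaces {x : L} (hx : Transcendental k x) (D : ℕ) (Y : Submodule ℚ L)
    (K : IntermediateField k⟮x⟯ L) : Set (Submodule ℚ L) :=
  {W | ∃ (E : IntermediateField k⟮x⟯ L) (_ : E ≤ K) (_ : FiniteDimensional k⟮x⟯ E) (u : E),
    (u : L) ∈ Y ∧ Star hx E D u ∧
      W = Submodule.map (vq E) (Submodule.comap (vq E) Y ⊓ (Lu hx E u).restrictScalars ℚ)}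

open IntermediateField in
lemma finite_le {x : L} (K : IntermediateField k⟮x⟯ L) [FiniteDimensional k⟮x⟯ K] :
    {E : IntermediateField k⟮x⟯ L | E ≤ K}.Finite := by
  have : CharZero k⟮x⟯ := charZero_of_injective_algebraMap (algebraMap k k⟮x⟯).injective
  have hfin : Finite (IntermediateField k⟮x⟯ K) :=
    Field.finite_intermediateField_of_exists_primitive_element k⟮x⟯ K
      (Field.exists_primitive_element k⟮x⟯ K)
  refine (Set.finite_range (fun G : IntermediateField k⟮x⟯ K => lift G)).subset ?_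
  intro E hE
  exact ⟨restrict hE, lift_restrict hE⟩

open IntermediateField in
lemma finite_all [IsAlgClosed L] {x : L} (hx : Transcendental k x) (D : ℕ) (Y : Submodule ℚ L)
    [Module.Finite ℚ Y] (K : IntermediateField k⟮x⟯ L) [FiniteDimensional k⟮x⟯ K] :
    (spaces hx D Y K).Finite := by
  have h1 : spaces hx D Y K ⊆ ⋃ E ∈ {E : IntermediateField k⟮x⟯ L | E ≤ K},
      {W | ∃ (_ : FiniteDimensional k⟮x⟯ E) (u : E),
        W = Submodule.map (vq E) (Submodule.comap (vq E) Y ⊓ (Lu hx E u).restrictScalars ℚ)} := by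
    rintro W ⟨E, hE, hfd, u, _, _, hW⟩
    exact Set.mem_biUnion hE ⟨hfd, u, hW⟩
  refine ((finite_le K).biUnion fun E _ => ?_).subset h1
  by_cases hfd : FiniteDimensional k⟮x⟯ E
  · have hYf : Module.Finite ℚ (Submodule.comap (vq E) Y) := by
      have hinj : Function.Injective
          ((vq E).restrict (p := Submodule.comap (vq E) Y) (q := Y) fun y hy => hy) := by
        intro a b hab
        apply Subtype.ext
        apply vq_injective E
        have h2 := congrArg Subtype.val hab
        exact h2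
      exact Module.Finite.of_injective _ hinj
    refine ((finite_spaces hx E (Submodule.comap (vq E) Y)).image (Submodule.map (vq E))).subset ?_
    rintro W ⟨_, u, rfl⟩
    exact ⟨_, ⟨u, rfl⟩, rfl⟩
  · refine Set.finite_empty.subset ?_
    rintro W ⟨h, _⟩
    exact absurd h hfd

open IntermediateField in
/-- The structure theorem, additive form. -/
theorem structure_add [IsAlgClosed L] {x : L} (hx : Transcendental k x) (D : ℕ)
    (Y : Submodule ℚ L) [Module.Finite ℚ Y] :
    ∃ T : Set (Submodule ℚ L), T.Finite ∧ (∀ W ∈ T, W ≤ Y) ∧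
      (∀ u ∈ Y, Rel k x D u ↔ ∃ W ∈ T, u ∈ W) ∧
      (x ∈ Y → ∀ W ∈ T, x ∈ W) ∧
      ∀ W ∈ T, ∀ (M : ℕ) (w : Fin M → L),
        (∀ i, w i ∈ Submodule.span k ({1, x} ∪ (W : Set L))) → LinearIndependent k w →
          M ≤ 2 * D ∧ (IsAlgClosed k → M ≤ D + 1) := by
  classical
  obtain ⟨s, hs⟩ : ∃ s : Finset L, (∀ y ∈ s, IsAlgebraic k⟮x⟯ y) ∧
      ∀ y ∈ Y, IsAlgebraic k⟮x⟯ y → y ∈ Submodule.span ℚ (s : Set L) := by
    let Ya : Submodule ℚ L :=
      { carrier := {y | y ∈ Y ∧ IsAlgebraic k⟮x⟯ y}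
        add_mem' := fun {a b} ha hb => ⟨Y.add_mem ha.1 hb.1, ha.2.add hb.2⟩
        zero_mem' := ⟨Y.zero_mem, isAlgebraic_zero⟩
        smul_mem' := fun q a ha => ⟨Y.smul_mem q ha.1, by
          rw [Algebra.smul_def]
          refine IsAlgebraic.mul ?_ ha.2
          have : algebraMap ℚ L q = algebraMap k⟮x⟯ L (algebraMap k k⟮x⟯ (q : k)) := by
            rw [← IsScalarTower.algebraMap_apply]
            simp
          rw [this]
          exact isAlgebraic_algebraMap _⟩ }
    have hYa : Ya ≤ Y := fun y hy => hy.1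
    have hfin : Module.Finite ℚ Ya := Submodule.finiteDimensional_of_le hYa
    obtain ⟨s, hs⟩ := (Module.Finite.iff_fg.1 hfin : Ya.FG)
    refine ⟨s, fun y hy => ?_, fun y hy hya => ?_⟩
    · have h1 : y ∈ Ya := by
        rw [← hs]
        exact Submodule.subset_span hy
      exact h1.2
    · rw [hs]
      exact ⟨hy, hya⟩
  obtain ⟨hs1, hs2⟩ := hs
  set K : IntermediateField k⟮x⟯ L := adjoin k⟮x⟯ (s : Set L) with hK
  have hKfd : FiniteDimensional k⟮x⟯ K :=
    finiteDimensional_adjoin fun y hy => (hs1 y hy).isIntegral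
  have hspan : ∀ y ∈ Submodule.span ℚ (s : Set L), y ∈ K := by
    intro y hy
    induction hy using Submodule.span_induction with
    | mem y hy => exact subset_adjoin _ _ hy
    | zero => exact K.zero_mem
    | add a b _ _ ha hb => exact K.add_mem ha hb
    | smul q a _ ha =>
      rw [Rat.smul_def]
      exact K.mul_mem (SubfieldClass.ratCast_mem K q) ha
  have hYK : ∀ y ∈ Y, IsAlgebraic k⟮x⟯ y → y ∈ K := fun y hy hya => hspan y (hs2 y hy hya)
  refine ⟨spaces hx D Y K, finite_all hx D Y K, ?_, ?_, ?_, ?_⟩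
  · rintro W ⟨E, _, _, u, _, _, rfl⟩
    rintro _ ⟨y, ⟨hy, _⟩, rfl⟩
    exact hy
  · intro u hu
    constructor
    · intro h
      have halg := isAlgebraic_of_rel hx h
      have hfd : FiniteDimensional k⟮x⟯ k⟮x⟯⟮u⟯ := adjoin.finiteDimensional halg.isIntegral
      refine ⟨_, ⟨k⟮x⟯⟮u⟯, ?_, hfd, AdjoinSimple.gen k⟮x⟯ u, ?_, ?_, rfl⟩, ?_⟩
      · rw [adjoin_simple_le_iff]
        exact hYK u hu halg
      · exact hu
      · refine star_of_rel hx _ D _ ?_ h
        intro σ τ hστ
        refine adjoin_algHom_ext _ fun y hy => ?_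
        rw [Set.mem_singleton_iff] at hy
        subst hy
        exact hστ
      · exact ⟨AdjoinSimple.gen k⟮x⟯ u, ⟨hu, self_mem_Lu hx _ _⟩, rfl⟩
    · rintro ⟨W, ⟨E, _, hfd, v, _, hst, rfl⟩, ⟨y, ⟨_, hy⟩, rfl⟩⟩
      exact rel_of_star hx E D y (star_mono hx E hst hy)
  · rintro hxY W ⟨E, _, hfd, v, _, hst, rfl⟩
    refine ⟨algebraMap k⟮x⟯ E (AdjoinSimple.gen k x), ⟨?_, x_mem_Lu hx E v⟩, rfl⟩
    exact hxY
  · rintro W ⟨E, _, hfd, v, _, hst, rfl⟩ M w hw hli
    have hle : Submodule.span k ({1, x} ∪ ((Submodule.map (vq E) (Submodule.comap (vq E) Y ⊓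
        (Lu hx E v).restrictScalars ℚ) : Submodule ℚ L) : Set L)) ≤
        Submodule.map ((E.val.restrictScalars k).toLinearMap) (Lu hx E v) := by
      rw [Submodule.span_le]
      rintro y ((rfl | rfl) | ⟨z, ⟨_, hz⟩, rfl⟩)
      · exact ⟨1, one_mem_Lu hx E v, rfl⟩
      · exact ⟨_, x_mem_Lu hx E v, rfl⟩
      · exact ⟨z, hz, rfl⟩
    choose z hz hzw using fun i => hle (hw i)
    have h1 : w = fun i => (E.val.restrictScalars k).toLinearMap (z i) := by
      funext i
      exact (hzw i).symm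
    rw [h1] at hli
    have hli2 : LinearIndependent k z := LinearIndependent.of_comp _ hli
    exact ⟨dim_bound hx E hst z hz hli2, fun _ => dim_bound_closed hx E hst z hz hli2⟩

end Pool.Agent.KStr
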