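import Pool.Agent.KStr.Val

/-!
# Places of a rational function field
-/

set_option autoImplicit false

namespace Pool.Agent.KStr

open Polynomial

variable {k L : Type} [Field k] [Field L] [Algebra k L]

lemma exists_place {y : L} (hy : Transcendental k y) (p : k[X]) (hp : ¬ IsUnit p) :
    ∃ V : ValuationSubring L, (∀ r : k[X], aeval y r ∈ V) ∧ V.valuation (aeval y p) < 1 := by
  set A : Subring L := (aeval y : k[X] →ₐ[k] L).toRingHom.range with hA
  set q : A := ⟨aeval y p, ⟨p, rfl⟩⟩ with hq
  have hI : Ideal.span {q} ≠ ⊤ := by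
    intro h
    rw [Ideal.eq_top_iff_one, Ideal.mem_span_singleton] at h
    obtain ⟨⟨_, ⟨r, rfl⟩⟩, h1⟩ := h
    apply hp
    have h2 : aeval y (p * r) = aeval y (1 : k[X]) := by
      have h4 := congrArg Subtype.val h1
      rw [map_mul, map_one]
      exact h4.symm
    have h3 : p * r = 1 := (transcendental_iff_injective.1 hy) h2
    exact IsUnit.of_mul_eq_one _ h3
  obtain ⟨V, hV1, hV2⟩ := Ideal.image_subset_nonunits_valuationSubring _ hI
  refine ⟨V, fun r => hV1 ⟨r, rfl⟩, ?_⟩
  exact V.mem_nonunits_iff.1 (hV2 ⟨q, Ideal.subset_span rfl, rfl⟩)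

/-- A place of `L` above the finite place `p`. -/
noncomputable def VP {x : L} (hx : Transcendental k x) (p : k[X]) : ValuationSubring L :=
  open Classical in if h : IsUnit p then ⊤ else (exists_place hx p h).choose

lemma vp_le_one {x : L} (hx : Transcendental k x) (p r : k[X]) :
    (VP hx p).valuation (aeval x r) ≤ 1 := by
  classical
  rw [ValuationSubring.valuation_le_one_iff]
  unfold VP
  split_ifs with h
  · exact ValuationSubring.mem_top _
  · exact (exists_place hx p h).choose_spec.1 r

lemma vp_lt_one {x : L} (hx : Transcendental k x) {p r : k[X]} (hp : ¬ IsUnit p) (h : p ∣ r) :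
    (VP hx p).valuation (aeval x r) < 1 := by
  obtain ⟨s, rfl⟩ := h
  have h1 : (VP hx p).valuation (aeval x p) < 1 := by
    unfold VP
    rw [dif_neg hp]
    exact (exists_place hx p hp).choose_spec.2
  rw [map_mul, map_mul]
  exact mul_lt_one_of_lt_of_le h1 (vp_le_one hx p s)

lemma vp_eq_one {x : L} (hx : Transcendental k x) {p r : k[X]} (hp : Irreducible p)
    (h : ¬ p ∣ r) : (VP hx p).valuation (aeval x r) = 1 := by
  refine le_antisymm (vp_le_one hx p r) ?_
  obtain ⟨a, b, hab⟩ := (Irreducible.coprime_iff_not_dvd hp).2 h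
  have h1 : (VP hx p).valuation (aeval x (a * p) + aeval x (b * r)) = 1 := by
    rw [← map_add, hab, map_one, map_one]
  by_contra hlt
  rw [not_le] at hlt
  have h2 : (VP hx p).valuation (aeval x (a * p)) < 1 :=
    vp_lt_one hx hp.not_isUnit (dvd_mul_left p a)
  have h3 : (VP hx p).valuation (aeval x (b * r)) < 1 := by
    rw [map_mul, map_mul, mul_comm]
    exact mul_lt_one_of_lt_of_le hlt (vp_le_one hx p b)
  have h4 := (VP hx p).valuation.map_add_lt h2 h3
  rw [h1] at h4
  exact lt_irrefl _ h4

/-- A quotient of polynomials integral at all finite places is a polynomial. -/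
lemma exists_poly_of_le_one {x : L} (hx : Transcendental k x) (y : L)
    (hy : ∃ r s : k[X], y = aeval x r / aeval x s)
    (h : ∀ p : k[X], p.Monic → Irreducible p → (VP hx p).valuation y ≤ 1) :
    ∃ r : k[X], y = aeval x r := by
  classical
  obtain ⟨r, s, hrs⟩ := hy
  by_cases hs : s = 0
  · refine ⟨0, ?_⟩
    rw [hrs, hs, map_zero, div_zero]
  obtain ⟨g, r', s', hcop, hr, hs'⟩ : ∃ g r' s' : k[X], IsCoprime r' s' ∧ r = g * r' ∧
      s = g * s' := by
    obtain ⟨r', hr'⟩ := gcd_dvd_left r s
    obtain ⟨s', hs'⟩ := gcd_dvd_right r s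
    refine ⟨gcd r s, r', s', ?_, hr', hs'⟩
    have hg : gcd r s ≠ 0 := fun h0 => hs ((gcd_eq_zero_iff r s).1 h0).2
    have h1 : IsUnit (gcd r' s') := by
      have h2 : gcd r s * 1 = gcd r s * gcd r' s' * 1 ∨ True := Or.inr trivial
      have h3 := gcd_mul_left (gcd r s) r' s'
      rw [← hr', ← hs'] at h3
      have h4 : Associated (gcd r s * 1) (gcd r s * gcd r' s') := by
        rw [mul_one]
        refine (Associated.trans (Associated.of_eq h3) ?_)
        exact Associated.mul_right (normalize_associated _) _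
      exact ((Associated.of_mul_left h4 (Associated.refl _) hg).symm.isUnit_iff).2 isUnit_one
    exact (gcd_isUnit_iff r' s').1 h1
  have hg : g ≠ 0 := fun h0 => hs (by rw [hs', h0, zero_mul])
  have hs0 : s' ≠ 0 := fun h0 => hs (by rw [hs', h0, mul_zero])
  have hinj := transcendental_iff_injective.1 hx
  have hgx : aeval x g ≠ 0 := fun h0 => hg (hinj (h0.trans (map_zero _).symm))
  have hsx : aeval x s' ≠ 0 := fun h0 => hs0 (hinj (h0.trans (map_zero _).symm))
  have hy2 : y = aeval x r' / aeval x s' := by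
    rw [hrs, hr, hs', map_mul, map_mul, mul_div_mul_left _ _ hgx]
  by_cases hu : IsUnit s'
  · obtain ⟨t, ht⟩ := hu.exists_right_inv
    refine ⟨r' * t, ?_⟩
    rw [hy2, div_eq_iff hsx, ← map_mul, mul_assoc, mul_comm t, ht, mul_one]
  · exfalso
    obtain ⟨p, hpm, hpi, hps⟩ := Polynomial.exists_monic_irreducible_factor s' hu
    have h1 := h p hpm hpi
    have h2 : ¬ p ∣ r' := fun hd => hpi.not_isUnit (hcop.isUnit_of_dvd' hd hps)
    rw [hy2, map_div₀, vp_eq_one hx hpi h2] at h1
    have h3 := vp_lt_one hx hpi.not_isUnit hps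
    have h4 : 0 < (VP hx p).valuation (aeval x s') := by
      rw [zero_lt_iff]
      exact (Valuation.ne_zero_iff _).2 hsx
    rw [div_le_iff₀ h4, one_mul] at h1
    exact absurd h1 (not_le.2 h3)

/-! ## The infinite place -/

lemma transcendental_inv {x : L} (hx : Transcendental k x) : Transcendental k x⁻¹ := by
  intro h
  exact hx (IsAlgebraic.inv_iff.1 h)

/-- A place of `L` above the infinite place. -/
noncomputable def VI {x : L} (hx : Transcendental k x) : ValuationSubring L :=
  (exists_place (transcendental_inv hx) X Polynomial.not_isUnit_X).choose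

lemma vi_inv_mem {x : L} (hx : Transcendental k x) (r : k[X]) :
    (VI hx).valuation (aeval x⁻¹ r) ≤ 1 := by
  rw [ValuationSubring.valuation_le_one_iff]
  exact (exists_place (transcendental_inv hx) X Polynomial.not_isUnit_X).choose_spec.1 r

lemma vi_inv_lt {x : L} (hx : Transcendental k x) : (VI hx).valuation x⁻¹ < 1 := by
  have h : (VI hx).valuation (aeval x⁻¹ (X : k[X])) < 1 :=
    (exists_place (transcendental_inv hx) X Polynomial.not_isUnit_X).choose_spec.2
  rw [aeval_X] at h
  exact h

lemma ne_zero_of_trans {x : L} (hx : Transcendental k x) : x ≠ 0 := by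
  rintro rfl
  exact hx isAlgebraic_zero

lemma vi_x {x : L} (hx : Transcendental k x) : 1 < (VI hx).valuation x := by
  have h := vi_inv_lt hx
  rw [map_inv₀] at h
  have h0 : 0 < (VI hx).valuation x := by
    rw [zero_lt_iff]
    exact (Valuation.ne_zero_iff _).2 (ne_zero_of_trans hx)
  exact (inv_lt_one₀ h0).1 h

lemma vi_C {x : L} (hx : Transcendental k x) {c : k} (hc : c ≠ 0) :
    (VI hx).valuation (algebraMap k L c) = 1 := by
  have h1 : ∀ c : k, (VI hx).valuation (algebraMap k L c) ≤ 1 := by
    intro c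
    have h := vi_inv_mem hx (C c)
    rw [aeval_C] at h
    exact h
  refine le_antisymm (h1 c) ?_
  have h2 := h1 c⁻¹
  rw [map_inv₀, map_inv₀] at h2
  have h0 : 0 < (VI hx).valuation (algebraMap k L c) := by
    rw [zero_lt_iff]
    exact (Valuation.ne_zero_iff _).2 ((_root_.map_ne_zero _).2 hc)
  exact (inv_le_one₀ h0).1 h2

lemma vi_poly {x : L} (hx : Transcendental k x) {r : k[X]} (hr : r ≠ 0) :
    (VI hx).valuation (aeval x r) = (VI hx).valuation x ^ r.natDegree := by
  have hx0 := ne_zero_of_trans hx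
  have h1 : aeval x r = aeval x⁻¹ r.reverse * x ^ r.natDegree := by
    let _ := invertibleOfNonzero hx0
    have h2 := Polynomial.eval₂_reverse_mul_pow (algebraMap k L) x r
    rw [invOf_eq_inv] at h2
    exact h2.symm
  have h3 : (VI hx).valuation (aeval x⁻¹ r.reverse) = 1 := by
    have h4 : r.reverse = C r.leadingCoeff + X * r.reverse.divX := by
      have h5 := Polynomial.X_mul_divX_add r.reverse
      rw [coeff_zero_reverse, add_comm] at h5
      exact h5.symm
    have h6 : (VI hx).valuation (aeval x⁻¹ (X * r.reverse.divX)) < 1 := by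
      rw [map_mul, map_mul, aeval_X]
      exact mul_lt_one_of_lt_of_le (vi_inv_lt hx) (vi_inv_mem hx _)
    have h7 : (VI hx).valuation (aeval x⁻¹ (C r.leadingCoeff : k[X])) = 1 := by
      rw [aeval_C]
      exact vi_C hx (leadingCoeff_ne_zero.2 hr)
    rw [h4, map_add, Valuation.map_add_eq_of_lt_left _ (by rw [h7]; exact h6), h7]
  rw [h1, map_mul, h3, one_mul, map_pow]

end Pool.Agent.KStr
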