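import Pool.Agent.KStr.Places

/-!
# Relations of bounded degree and profiles
-/

set_option autoImplicit false

namespace Pool.Agent.KStr

open Polynomial

/-! ## Embeddings -/

lemma prod_lifts {F E L : Type} [Field F] [Field E] [Field L] [Algebra F E] [Algebra F L]
    [FiniteDimensional F E] [Algebra.IsSeparable F E] [IsAlgClosed L] [Infinite F] (u : E) :
    (∏ τ : E →ₐ[F] L, (X - C (τ u))) ∈ lifts (algebraMap F L) := by
  classical
  rw [mem_lifts]
  let b := Module.finBasis F E
  refine ⟨(Algebra.leftMulMatrix b u).charpoly, ?_⟩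
  refine Polynomial.eq_of_infinite_eval_eq _ _ ?_
  refine Set.Infinite.mono ?_ (Set.infinite_range_of_injective (algebraMap F L).injective)
  rintro _ ⟨y, rfl⟩
  simp only [Set.mem_ofPred_eq]
  rw [eval_map_algebraMap, aeval_algebraMap_apply, eval_prod]
  have h1 : aeval y (Algebra.leftMulMatrix b u).charpoly = Algebra.norm F (algebraMap F E y - u) := by
    rw [Algebra.norm_eq_matrix_det b, map_sub, AlgHom.commutes, coe_aeval_eq_eval, Matrix.charpoly,
      _root_.eval_det, Matrix.matPolyEquiv_charmatrix, eval_sub, eval_X, eval_C]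
    rfl
  rw [h1, Algebra.norm_eq_prod_embeddings]
  refine Finset.prod_congr rfl (fun τ _ => ?_)
  rw [map_sub, AlgHom.commutes, eval_sub, eval_X, eval_C]

variable {k L : Type} [Field k] [Field L] [Algebra k L]

/-- `u` satisfies together with `x` a nonzero polynomial relation over `k` of total degree at most
`D`. -/
def Rel (k : Type) {L : Type} [Field k] [Field L] [Algebra k L] (x : L) (D : ℕ) (u : L) : Prop :=
  ∃ f : k[X][X], f ≠ 0 ∧ (∀ j, f.coeff j ≠ 0 → (f.coeff j).natDegree + j ≤ D) ∧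
    eval₂ (aeval x : k[X] →ₐ[k] L).toRingHom u f = 0

open IntermediateField in
/-- Polynomials in `x` as elements of the field `k(x)`. -/
noncomputable def toF (x : L) : k[X] →+* k⟮x⟯ := (aeval (AdjoinSimple.gen k x)).toRingHom

open IntermediateField in
lemma algebraMap_toF (x : L) (r : k[X]) : algebraMap k⟮x⟯ L (toF x r) = aeval x r := by
  unfold toF
  have h := aeval_algebraMap_apply L (AdjoinSimple.gen k x) r
  rw [AdjoinSimple.algebraMap_gen] at h
  exact h.symm

open IntermediateField in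
lemma conj_root {x : L} (E : IntermediateField k⟮x⟯ L) (τ : E →ₐ[k⟮x⟯] L) (u : E) (f : k[X][X])
    (h : eval₂ (aeval x : k[X] →ₐ[k] L).toRingHom (u : L) f = 0) :
    eval₂ (aeval x : k[X] →ₐ[k] L).toRingHom (τ u) f = 0 := by
  have h1 : ∀ σ : E →ₐ[k⟮x⟯] L, (σ : E →+* L).comp ((algebraMap k⟮x⟯ E).comp (toF x)) =
      (aeval x : k[X] →ₐ[k] L).toRingHom := by
    intro σ
    ext r
    · simp only [RingHom.comp_apply]
      exact (σ.commutes _).trans (algebraMap_toF x _)
    · simp only [RingHom.comp_apply]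
      exact (σ.commutes _).trans (algebraMap_toF x _)
  have h2 : ∀ σ : E →ₐ[k⟮x⟯] L, eval₂ (aeval x : k[X] →ₐ[k] L).toRingHom (σ u) f =
      σ (eval₂ ((algebraMap k⟮x⟯ E).comp (toF x)) u f) := by
    intro σ
    rw [← h1 σ]
    exact (hom_eval₂ f _ (σ : E →+* L) u).symm
  have h3 := h2 E.val
  have h4 : E.val u = (u : L) := rfl
  rw [h4, h] at h3
  have h5 : eval₂ ((algebraMap k⟮x⟯ E).comp (toF x)) u f = 0 :=
    E.val.injective (h3.symm.trans (map_zero _).symm)
  rw [h2 τ, h5, map_zero]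

/-! ## Inequalities for the roots -/

lemma prod_le_prod_of_le {Γ₀ : Type} [LinearOrderedCommGroupWithZero Γ₀] {v : Valuation L Γ₀}
    {ρ : Γ₀} (hρ : 1 ≤ ρ) {s t : Multiset L} (h : s ≤ t) :
    (s.map fun r => max ρ (v r)).prod ≤ (t.map fun r => max ρ (v r)).prod := by
  obtain ⟨w, rfl⟩ := Multiset.le_iff_exists_add.1 h
  rw [Multiset.map_add, Multiset.prod_add]
  refine le_mul_of_one_le_right' ?_
  induction w using Multiset.induction_on with
  | empty => simp
  | cons a w ih =>
    rw [Multiset.map_cons, Multiset.prod_cons]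
    exact one_le_mul (hρ.trans (le_max_left _ _)) (ih (Multiset.le_add_right _ _))

lemma roots_bound [IsAlgClosed L] {Γ₀ : Type} [LinearOrderedCommGroupWithZero Γ₀]
    {v : Valuation L Γ₀} {ρ g : Γ₀} (hρ : 1 ≤ ρ) (G : L[X]) (s : Multiset L)
    (hs : s ≤ G.roots) (h : bd v ρ G g) :
    v G.leadingCoeff * (s.map fun r => max ρ (v r)).prod ≤ g := by
  have h1 : G = C G.leadingCoeff * (G.roots.map fun r => X - C r).prod :=
    (IsAlgClosed.splits G).eq_prod_roots
  rw [h1] at h
  have h2 := lower (lt_of_lt_of_le zero_lt_one hρ) _ _ h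
  exact (mul_le_mul' le_rfl (prod_le_prod_of_le hρ hs)).trans h2

open IntermediateField in
/-- The condition on the profile of `u`. -/
def Star {x : L} (hx : Transcendental k x) (E : IntermediateField k⟮x⟯ L)
    [FiniteDimensional k⟮x⟯ E] (D : ℕ) (u : E) : Prop :=
  ∃ c : k[X], c ≠ 0 ∧
    (∀ p : k[X], p.Monic → Irreducible p → (VP hx p).valuation (aeval x c) *
      ∏ τ : E →ₐ[k⟮x⟯] L, max 1 ((VP hx p).valuation (τ u)) ≤ 1) ∧
    (VI hx).valuation (aeval x c) *
      ∏ τ : E →ₐ[k⟮x⟯] L, max ((VI hx).valuation x) ((VI hx).valuation (τ u)) ≤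
        (VI hx).valuation x ^ D

open IntermediateField in
lemma star_of_rel [IsAlgClosed L] {x : L} (hx : Transcendental k x)
    (E : IntermediateField k⟮x⟯ L) [FiniteDimensional k⟮x⟯ E] (D : ℕ) (u : E)
    (hgen : Function.Injective fun τ : E →ₐ[k⟮x⟯] L => τ u) (h : Rel k x D (u : L)) :
    Star hx E D u := by
  obtain ⟨f, hf0, hfd, hfu⟩ := h
  set φ := (aeval x : k[X] →ₐ[k] L).toRingHom with hφ
  have hinj : Function.Injective φ := transcendental_iff_injective.1 hx
  set G := f.map φ with hG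
  have hG0 : G ≠ 0 := (Polynomial.map_ne_zero_iff hinj).2 hf0
  set s : Multiset L := (Finset.univ : Finset (E →ₐ[k⟮x⟯] L)).val.map (fun τ => τ u) with hs
  have hsnd : s.Nodup := Multiset.Nodup.map hgen Finset.univ.nodup
  have hsr : s ≤ G.roots := by
    rw [Multiset.le_iff_subset hsnd]
    intro r hr
    obtain ⟨τ, _, rfl⟩ := Multiset.mem_map.1 hr
    rw [mem_roots hG0, IsRoot.def, hG, eval_map]
    exact conj_root E τ u f hfu
  have hlc : G.leadingCoeff = φ f.leadingCoeff := leadingCoeff_map_of_injective hinj f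
  have hprod : ∀ (Γ₀ : Type) [LinearOrderedCommGroupWithZero Γ₀] (v : Valuation L Γ₀) (ρ : Γ₀),
      (s.map fun r => max ρ (v r)).prod = ∏ τ : E →ₐ[k⟮x⟯] L, max ρ (v (τ u)) := by
    intro Γ₀ _ v ρ
    rw [hs, Multiset.map_map]
    rfl
  refine ⟨f.leadingCoeff, leadingCoeff_ne_zero.2 hf0, fun p _ _ => ?_, ?_⟩
  · rw [← hprod]
    have h1 := roots_bound (v := (VP hx p).valuation) (ρ := 1) (g := 1) le_rfl G s hsr
      (fun j => by rw [one_pow, mul_one, hG, coeff_map]; exact vp_le_one hx p _)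
    rw [hlc] at h1
    exact h1
  · rw [← hprod]
    have h1 := roots_bound (v := (VI hx).valuation) (ρ := (VI hx).valuation x)
      (g := (VI hx).valuation x ^ D) (vi_x hx).le G s hsr (fun j => by
        rw [hG, coeff_map]
        by_cases hj : f.coeff j = 0
        · rw [hj, map_zero, map_zero, zero_mul]
          exact zero_le
        · have h2 : (VI hx).valuation (φ (f.coeff j)) =
              (VI hx).valuation x ^ (f.coeff j).natDegree := vi_poly hx hj
          rw [h2, ← pow_add]
          exact pow_le_pow_right₀ (vi_x hx).le (hfd j hj))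
    rw [hlc] at h1
    exact h1

open IntermediateField in
lemma rel_of_star [IsAlgClosed L] [CharZero k] {x : L} (hx : Transcendental k x)
    (E : IntermediateField k⟮x⟯ L) [FiniteDimensional k⟮x⟯ E] (D : ℕ) (u : E)
    (h : Star hx E D u) : Rel k x D (u : L) := by
  obtain ⟨c, hc0, hcp, hci⟩ := h
  set φ := (aeval x : k[X] →ₐ[k] L).toRingHom with hφ
  have hinj : Function.Injective φ := transcendental_iff_injective.1 hx
  have : CharZero k⟮x⟯ := charZero_of_injective_algebraMap (algebraMap k k⟮x⟯).injective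
  have : Infinite k⟮x⟯ := inferInstance
  set s : Multiset L := (Finset.univ : Finset (E →ₐ[k⟮x⟯] L)).val.map (fun τ => τ u) with hs
  set G : L[X] := C (φ c) * ∏ τ : E →ₐ[k⟮x⟯] L, (X - C (τ u)) with hG
  have hGs : G = C (φ c) * (s.map fun r => X - C r).prod := by
    rw [hG, hs, Multiset.map_map]
    rfl
  have hprod : ∀ (Γ₀ : Type) [LinearOrderedCommGroupWithZero Γ₀] (v : Valuation L Γ₀) (ρ : Γ₀),
      (s.map fun r => max ρ (v r)).prod = ∏ τ : E →ₐ[k⟮x⟯] L, max ρ (v (τ u)) := by
    intro Γ₀ _ v ρ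
    rw [hs, Multiset.map_map]
    rfl
  have hG0 : G ≠ 0 := by
    rw [hG]
    refine mul_ne_zero ?_ ?_
    · rw [Ne, C_eq_zero]
      exact fun h0 => hc0 (hinj (h0.trans (map_zero _).symm))
    · exact Finset.prod_ne_zero_iff.2 (fun τ _ => X_sub_C_ne_zero _)
  have hlift : G ∈ lifts φ := by
    rw [lifts_iff_coeff_lifts]
    intro j
    obtain ⟨H, hH⟩ := (mem_lifts _).1 (prod_lifts (F := k⟮x⟯) (E := E) (L := L) u)
    have h1 : G.coeff j = algebraMap k⟮x⟯ L (toF x c * H.coeff j) := by
      rw [hG, coeff_C_mul, ← hH, coeff_map, map_mul, algebraMap_toF]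
      rfl
    obtain ⟨r, hr⟩ := exists_poly_of_le_one hx (G.coeff j) (by
      rw [h1]
      exact mem_adjoin_simple_iff k _ |>.1 (toF x c * H.coeff j).2) (fun p hpm hpi => by
        have h2 := upper (v := (VP hx p).valuation) (ρ := 1) one_pos (φ c) s j
        rw [← hGs, one_pow, mul_one, hprod] at h2
        exact h2.trans (hcp p hpm hpi))
    exact ⟨r, hr.symm⟩
  obtain ⟨f, hf⟩ := (mem_lifts _).1 hlift
  refine ⟨f, ?_, fun j hj => ?_, ?_⟩
  · rintro rfl
    rw [Polynomial.map_zero] at hf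
    exact hG0 hf.symm
  · have h1 := upper (v := (VI hx).valuation) (ρ := (VI hx).valuation x)
      (zero_lt_one.trans (vi_x hx)) (φ c) s j
    rw [← hGs, hprod, ← hf, coeff_map] at h1
    have h2 : (VI hx).valuation (φ (f.coeff j)) =
        (VI hx).valuation x ^ (f.coeff j).natDegree := vi_poly hx hj
    rw [h2, ← pow_add] at h1
    exact (pow_le_pow_iff_right₀ (vi_x hx)).1 (h1.trans hci)
  · rw [← eval_map, hf, hG, eval_mul, eval_prod]
    have h3 : ∏ τ : E →ₐ[k⟮x⟯] L, eval (u : L) (X - C (τ u)) = 0 := by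
      refine Finset.prod_eq_zero (Finset.mem_univ E.val) ?_
      rw [eval_sub, eval_X, eval_C]
      exact sub_self _
    rw [h3, mul_zero]

end Pool.Agent.KStr
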