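import Mathlib

/-!
# Gauss norms of products of linear factors
-/

set_option autoImplicit false

namespace Pool.Agent.KStr

open Polynomial

variable {L Γ₀ : Type} [Field L] [LinearOrderedCommGroupWithZero Γ₀]

/-- All coefficients of `f` satisfy `v (f_j) ρ^j ≤ g`. -/
def bd (v : Valuation L Γ₀) (ρ : Γ₀) (f : L[X]) (g : Γ₀) : Prop :=
  ∀ j, v (f.coeff j) * ρ ^ j ≤ g

lemma bd_mul {v : Valuation L Γ₀} {ρ g : Γ₀} {f : L[X]} (u : L) (h : bd v ρ f g) :
    bd v ρ (f * (X - C u)) (g * max ρ (v u)) := by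
  intro j
  rcases j with _ | j
  · rw [mul_coeff_zero, coeff_sub, coeff_X_zero, coeff_C_zero, zero_sub, map_mul,
      Valuation.map_neg, pow_zero, mul_one]
    have h1 := h 0
    rw [pow_zero, mul_one] at h1
    exact mul_le_mul' h1 (le_max_right _ _)
  · rw [coeff_mul_X_sub_C]
    refine (mul_le_mul' (v.map_sub _ _) le_rfl).trans ?_
    rcases le_total (v (f.coeff j)) (v (f.coeff (j + 1) * u)) with hc | hc
    · rw [max_eq_right hc, map_mul, mul_right_comm]
      exact mul_le_mul' (h (j + 1)) (le_max_right _ _)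
    · rw [max_eq_left hc, pow_succ, ← mul_assoc]
      exact mul_le_mul' (h j) (le_max_left _ _)

lemma of_bd_mul {v : Valuation L Γ₀} {ρ g : Γ₀} (hρ : 0 < ρ) {f : L[X]} (u : L)
    (h : bd v ρ (f * (X - C u)) (g * max ρ (v u))) : bd v ρ f g := by
  by_contra hcon
  unfold bd at hcon
  push Not at hcon
  obtain ⟨j0, hj0⟩ := hcon
  have hs0 : j0 ∈ f.support := by
    rw [mem_support_iff]
    intro h0
    rw [h0, map_zero, zero_mul] at hj0
    exact not_lt_zero hj0
  obtain ⟨j1, hj1, hmax⟩ := f.support.exists_max_image (fun j => v (f.coeff j) * ρ ^ j)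
    ⟨j0, hs0⟩
  set M := v (f.coeff j1) * ρ ^ j1 with hM
  have hall : ∀ j, v (f.coeff j) * ρ ^ j ≤ M := by
    intro j
    by_cases hj : j ∈ f.support
    · exact hmax j hj
    · rw [notMem_support_iff] at hj
      rw [hj, map_zero, zero_mul]
      exact zero_le
  have hgM : g < M := lt_of_lt_of_le hj0 (hall j0)
  obtain ⟨j2, hj2, hj2M, hlt⟩ : ∃ j2 ∈ f.support, v (f.coeff j2) * ρ ^ j2 = M ∧
      ∀ j, j2 < j → v (f.coeff j) * ρ ^ j < M := by
    set T := f.support.filter (fun j => v (f.coeff j) * ρ ^ j = M) with hT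
    have hTn : T.Nonempty := ⟨j1, Finset.mem_filter.2 ⟨hj1, rfl⟩⟩
    have hm := T.max'_mem hTn
    refine ⟨T.max' hTn, (Finset.mem_filter.1 hm).1, (Finset.mem_filter.1 hm).2, fun j hj => ?_⟩
    refine lt_of_le_of_ne (hall j) (fun he => ?_)
    have hj' : j ∈ T := by
      refine Finset.mem_filter.2 ⟨?_, he⟩
      rw [mem_support_iff]
      intro h0
      rw [h0, map_zero, zero_mul] at he
      rw [← he] at hgM
      exact not_lt_zero hgM
    exact absurd (T.le_max' j hj') (not_le.2 hj)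
  have hM0 : 0 < M := lt_of_le_of_lt zero_le hgM
  have hmx : 0 < max ρ (v u) := lt_of_lt_of_le hρ (le_max_left _ _)
  rcases le_or_gt (v u) ρ with hu | hu
  · rw [max_eq_left hu] at h
    have h1 := h (j2 + 1)
    rw [coeff_mul_X_sub_C] at h1
    have h2 : v (f.coeff (j2 + 1) * u) < v (f.coeff j2) := by
      have h3 : v (f.coeff (j2 + 1)) * ρ ^ (j2 + 1) * v u < M * ρ :=
        lt_of_le_of_lt (mul_le_mul' le_rfl hu) (mul_lt_mul_of_pos_right (hlt _ (Nat.lt_succ_self _)) hρ)
      have h4 : v (f.coeff (j2 + 1) * u) * ρ ^ (j2 + 1) < v (f.coeff j2) * ρ ^ (j2 + 1) := by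
        rw [map_mul, mul_right_comm, pow_succ (n := j2) (a := ρ), ← mul_assoc (v (f.coeff j2)),
          hj2M, ← pow_succ]
        exact h3
      exact lt_of_mul_lt_mul_right' h4
    rw [Valuation.map_sub_eq_of_lt_left v h2, pow_succ, ← mul_assoc, hj2M] at h1
    exact absurd (le_of_mul_le_mul_right h1 hρ) (not_le.2 hgM)
  · rw [max_eq_right hu.le] at h
    have hu0 : 0 < v u := lt_of_le_of_lt zero_le hu
    have h1 := h j2
    rcases j2 with _ | j
    · rw [mul_coeff_zero, coeff_sub, coeff_X_zero, coeff_C_zero, zero_sub, map_mul,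
        Valuation.map_neg, mul_right_comm, hj2M] at h1
      exact absurd (le_of_mul_le_mul_right h1 hu0) (not_le.2 hgM)
    · rw [coeff_mul_X_sub_C] at h1
      have h2 : v (f.coeff j) < v (f.coeff (j + 1) * u) := by
        have h3 : v (f.coeff j) * ρ ^ j * ρ < M * v u :=
          lt_of_le_of_lt (mul_le_mul' (hall j) le_rfl) (mul_lt_mul_of_pos_left hu hM0)
        rw [← hj2M, mul_assoc, ← pow_succ, mul_right_comm _ _ (v u), ← map_mul] at h3
        exact lt_of_mul_lt_mul_right' h3
      rw [Valuation.map_sub_eq_of_lt_right v h2, map_mul, mul_right_comm, hj2M] at h1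
      exact absurd (le_of_mul_le_mul_right h1 hu0) (not_le.2 hgM)

lemma bd_prod_iff {v : Valuation L Γ₀} {ρ g : Γ₀} (hρ : 0 < ρ) (f : L[X]) (s : Multiset L) :
    bd v ρ (f * (s.map fun r => X - C r).prod) (g * (s.map fun r => max ρ (v r)).prod) ↔
      bd v ρ f g := by
  induction s using Multiset.induction_on generalizing f g with
  | empty => simp
  | cons a s ih =>
    rw [Multiset.map_cons, Multiset.prod_cons, Multiset.map_cons, Multiset.prod_cons,
      ← mul_assoc, ← mul_assoc, ih]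
    exact ⟨fun h => of_bd_mul hρ a h, fun h => bd_mul a h⟩

lemma bd_C_iff {v : Valuation L Γ₀} {ρ g : Γ₀} (c : L) : bd v ρ (C c) g ↔ v c ≤ g := by
  constructor
  · intro h
    have h1 := h 0
    rw [coeff_C_zero, pow_zero, mul_one] at h1
    exact h1
  · intro h j
    rcases j with _ | j
    · rw [coeff_C_zero, pow_zero, mul_one]
      exact h
    · rw [coeff_C_succ, map_zero, zero_mul]
      exact zero_le

lemma upper {v : Valuation L Γ₀} {ρ : Γ₀} (hρ : 0 < ρ) (c : L) (s : Multiset L) :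
    bd v ρ (C c * (s.map fun r => X - C r).prod) (v c * (s.map fun r => max ρ (v r)).prod) :=
  (bd_prod_iff hρ _ _).2 ((bd_C_iff c).2 le_rfl)

lemma prod_pos {v : Valuation L Γ₀} {ρ : Γ₀} (hρ : 0 < ρ) (s : Multiset L) :
    0 < (s.map fun r => max ρ (v r)).prod := by
  induction s using Multiset.induction_on with
  | empty => simp
  | cons a s ih =>
    rw [Multiset.map_cons, Multiset.prod_cons]
    exact mul_pos (lt_of_lt_of_le hρ (le_max_left _ _)) ih

lemma lower {v : Valuation L Γ₀} {ρ g : Γ₀} (hρ : 0 < ρ) (c : L) (s : Multiset L)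
    (h : bd v ρ (C c * (s.map fun r => X - C r).prod) g) :
    v c * (s.map fun r => max ρ (v r)).prod ≤ g := by
  have hP := prod_pos (v := v) hρ s
  have h1 : g = (g * ((s.map fun r => max ρ (v r)).prod)⁻¹) *
      (s.map fun r => max ρ (v r)).prod := by
    rw [mul_assoc, inv_mul_cancel₀ hP.ne', mul_one]
  rw [h1] at h ⊢
  rw [bd_prod_iff hρ, bd_C_iff] at h
  exact mul_le_mul' h le_rfl

end Pool.Agent.KStr
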